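import Pool.Agent.Helper96.NatBdry.Tube

open Set Filter Topology Metric
open scoped RealInnerProductSpace

namespace Pool.Agent.Helper96.NatBdry

variable {E : Type*} [NormedAddCommGroup E] [InnerProductSpace ℝ E]

open Classical in
/-- one cell of the tube -/
noncomputable def cell (g : E → E) (τ : ℝ) (e x : E) : E :=
  if ‖x‖ < 2 then g (pmap τ e x + τ • e) - τ • e else x

section
variable {g : E → E} {T τ : ℝ} {e : E}

theorem cell_far (hT : 1 < T) (hτ : τ = T + 2) (hga : ∀ y, T ≤ ‖y‖ → g y = y)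
    (he : ‖e‖ = 1) {x : E} (hx : 1 ≤ ‖x‖) : cell g τ e x = x := by
  unfold cell
  split_ifs with h
  · rw [pmap_far hx]
    have h1 : T ≤ ‖x + τ • e‖ := by
      have h2 : ‖τ • e‖ = τ := by
        rw [norm_smul, he, mul_one, Real.norm_of_nonneg (by linarith)]
      have h3 : ‖τ • e‖ ≤ ‖x + τ • e‖ + ‖x‖ := by
        calc ‖τ • e‖ = ‖(x + τ • e) - x‖ := by congr 1; abel
          _ ≤ _ := norm_sub_le _ _
      linarith
    rw [hga _ h1]
    abel
  · rfl

theorem cell_near (hgb : ∀ y, ‖y‖ ≤ 1 → g y = (2 : ℝ) • y) {x : E}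
    (hx : ‖x‖ ^ 2 ≤ 3 / 4) : cell g τ e x = (2 : ℝ) • x - τ • e := by
  have hx1 : ‖x‖ ≤ 1 := by nlinarith [norm_nonneg x]
  unfold cell
  rw [if_pos (by linarith), pmap_near hx, sub_add_cancel, hgb x hx1]

theorem cell_eventually_near {x : E} (hx : ‖x‖ < 2) :
    cell g τ e =ᶠ[𝓝 x] fun x => g (pmap τ e x + τ • e) - τ • e := by
  have : {y : E | ‖y‖ < 2} ∈ 𝓝 x := (isOpen_lt continuous_norm continuous_const).mem_nhds hx
  filter_upwards [this] with y hy
  have hy' : ‖y‖ < 2 := hy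
  simp [cell, hy']

theorem cell_eventually_far (hT : 1 < T) (hτ : τ = T + 2) (hga : ∀ y, T ≤ ‖y‖ → g y = y)
    (he : ‖e‖ = 1) {x : E} (hx : 1 < ‖x‖) :
    cell g τ e =ᶠ[𝓝 x] fun x => x := by
  have : {y : E | 1 < ‖y‖} ∈ 𝓝 x := (isOpen_lt continuous_const continuous_norm).mem_nhds hx
  filter_upwards [this] with y hy
  exact cell_far hT hτ hga he (le_of_lt hy)

theorem cell_contDiff (hT : 1 < T) (hτ : τ = T + 2) (hga : ∀ y, T ≤ ‖y‖ → g y = y)
    (hgc : ContDiff ℝ 1 g) (he : ‖e‖ = 1) : ContDiff ℝ 1 (cell g τ e) := by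
  rw [contDiff_iff_contDiffAt]
  intro x
  by_cases hx : ‖x‖ < 2
  · refine ContDiffAt.congr_of_eventuallyEq ?_ (cell_eventually_near hx)
    exact ((hgc.comp ((pmap_contDiff τ e).add contDiff_const)).sub contDiff_const).contDiffAt
  · refine ContDiffAt.congr_of_eventuallyEq ?_
      (cell_eventually_far hT hτ hga he (by linarith [not_lt.1 hx]))
    exact contDiffAt_id

theorem cell_fderiv_far (hT : 1 < T) (hτ : τ = T + 2) (hga : ∀ y, T ≤ ‖y‖ → g y = y)
    (he : ‖e‖ = 1) {x : E} (hx : 1 < ‖x‖) : fderiv ℝ (cell g τ e) x = 1 := by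
  rw [(cell_eventually_far hT hτ hga he hx).fderiv_eq]
  exact fderiv_id

theorem cell_mem_Qk (hT : 1 < T) (hτ : τ = T + 2) (hga : ∀ y, T ≤ ‖y‖ → g y = y)
    (hgc : ContDiff ℝ 1 g) (hgs : ∀ y, fderiv ℝ g y ∈ Qk E 2) (he : ‖e‖ = 1)
    {M : ℝ} (hM0 : 0 ≤ M) (hM : ∀ x, |deriv Real.smoothTransition x| ≤ M)
    {x : E} (hx : 0 ≤ ⟪x, e⟫) :
    fderiv ℝ (cell g τ e) x ∈ Qk E (2 * ((1 + 8 * τ * M) ^ 2 + 1)) := by
  have hk : 0 < (1 + 8 * τ * M) ^ 2 + 1 := by positivity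
  by_cases hx2 : ‖x‖ < 2
  · rw [(cell_eventually_near hx2).fderiv_eq]
    have h1 : HasFDerivAt (fun x => pmap τ e x + τ • e) (fderiv ℝ (pmap τ e) x) x :=
      (((pmap_contDiff τ e).differentiable (by norm_num) x).hasFDerivAt).add_const _
    have h2 : HasFDerivAt g (fderiv ℝ g (pmap τ e x + τ • e)) (pmap τ e x + τ • e) :=
      (hgc.differentiable (by norm_num) _).hasFDerivAt
    have h3 : HasFDerivAt (fun x => g (pmap τ e x + τ • e) - τ • e)
        ((fderiv ℝ g (pmap τ e x + τ • e)) ∘L (fderiv ℝ (pmap τ e) x)) x :=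
      (h2.comp x h1).sub_const _
    rw [h3.fderiv]
    exact comp_mem_Qk hk (hgs _) (pmap_mem_Qk (by linarith) hM0 hM he hx) (by norm_num)
  · rw [cell_fderiv_far hT hτ hga he (by linarith [not_lt.1 hx2])]
    apply one_mem_Qk
    nlinarith [sq_nonneg (1 + 8 * τ * M)]

theorem cell_mem_Cl (hT : 1 < T) (hτ : τ = T + 2) (hga : ∀ y, T ≤ ‖y‖ → g y = y)
    (hgc : ContDiff ℝ 1 g) (hgs : ∀ y, fderiv ℝ g y ∈ Qk E 2) (he : ‖e‖ = 1)
    {M : ℝ} (hM0 : 0 ≤ M) (hM : ∀ x, |deriv Real.smoothTransition x| ≤ M)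
    {x : E} (hx : 0 ≤ ⟪x, e⟫) :
    fderiv ℝ (cell g τ e) x ∈ Cl E (2 * ((1 + 8 * τ * M) ^ 2 + 1)) := by
  have hconv : Convex ℝ {x : E | 0 ≤ ⟪x, e⟫} := by
    intro a ha b hb s t hs ht _
    show 0 ≤ ⟪s • a + t • b, e⟫
    rw [inner_add_left, inner_smul_left, inner_smul_left]
    simp only [conj_trivial]
    exact add_nonneg (mul_nonneg hs ha) (mul_nonneg ht hb)
  have hpre : IsPreconnected ((fderiv ℝ (cell g τ e)) '' {x : E | 0 ≤ ⟪x, e⟫}) :=
    hconv.isPreconnected.image _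
      ((cell_contDiff hT hτ hga hgc he).continuous_fderiv (by norm_num)).continuousOn
  refine subset_Cl hpre ?_ (A := 1) ?_ (one_mem_Cl (by nlinarith [sq_nonneg (1 + 8 * τ * M)]))
    ⟨x, hx, rfl⟩
  · rintro _ ⟨y, hy, rfl⟩
    exact cell_mem_Qk hT hτ hga hgc hgs he hM0 hM hy
  · refine ⟨(2 : ℝ) • e, ?_, ?_⟩
    · show 0 ≤ ⟪(2 : ℝ) • e, e⟫
      rw [inner_smul_left, real_inner_self_eq_norm_sq, he]
      simp
    · refine cell_fderiv_far hT hτ hga he ?_
      rw [norm_smul, he]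
      norm_num

end

/-- the tube made of `N` cells -/
noncomputable def tube (F : E → E) : ℕ → E → E
  | 0 => id
  | N + 1 => fun x => F x + tube F N ((2 : ℝ) • x) - (2 : ℝ) • x

theorem exists_tube [FiniteDimensional ℝ E] :
    ∃ κ : ℝ, 1 < κ ∧ ∃ τ : ℝ, 0 < τ ∧ ∃ R : ℝ, 0 ≤ R ∧ ∀ e : E, ‖e‖ = 1 → ∀ N : ℕ,
      ∃ F : E → E, ContDiff ℝ 1 F ∧ (∀ x, 1 ≤ ‖x‖ → F x = x) ∧
        (∀ x, (2 : ℝ) ^ N * ‖x‖ ≤ 1 → F x = (2 : ℝ) ^ N • x - (N * τ) • e) ∧
        (∀ x, 0 ≤ ⟪x, e⟫ → fderiv ℝ F x ∈ Cl E κ) ∧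
        (∀ x, ‖x‖ ≤ 1 → ∃ t ∈ Icc (0 : ℝ) N, ‖F x + (t * τ) • e‖ ≤ R) := by
  obtain ⟨T, hT, g, hgc, hga, hgb, hgs⟩ := exists_g (E := E)
  obtain ⟨M, hM0, hM⟩ := sT_deriv_bound
  set τ : ℝ := T + 2 with hτ
  have hτ0 : 0 < τ := by linarith
  obtain ⟨R₀, hR₀⟩ := (isCompact_closedBall (0 : E) (1 + 2 * τ)).exists_bound_of_continuousOn
    hgc.continuous.continuousOn
  set κ : ℝ := 2 * ((1 + 8 * τ * M) ^ 2 + 1) with hκ
  have hκ1 : 1 < κ := by nlinarith [sq_nonneg (1 + 8 * τ * M)]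
  refine ⟨κ, hκ1, τ, hτ0, max (R₀ + τ) 1, le_max_of_le_right zero_le_one, ?_⟩
  intro e he
  have hcc := cell_contDiff (g := g) hT hτ hga hgc he
  have hcb : ∀ x : E, ‖x‖ ≤ 1 → ‖cell g τ e x‖ ≤ R₀ + τ := by
    intro x hx
    unfold cell
    rw [if_pos (by linarith)]
    have h1 : ‖g (pmap τ e x + τ • e)‖ ≤ R₀ := by
      apply hR₀
      rw [mem_closedBall_zero_iff]
      exact (norm_pmap_add hτ0.le he).trans (by linarith)
    calc ‖g (pmap τ e x + τ • e) - τ • e‖ ≤ ‖g (pmap τ e x + τ • e)‖ + ‖τ • e‖ :=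
          norm_sub_le _ _
      _ ≤ _ := by
        rw [norm_smul, he, mul_one, Real.norm_of_nonneg hτ0.le]
        linarith
  have hn2 : ∀ x : E, ‖(2 : ℝ) • x‖ = 2 * ‖x‖ := fun x => by rw [norm_smul]; norm_num
  intro N
  refine ⟨tube (cell g τ e) N, ?_⟩
  induction N with
  | zero =>
    refine ⟨contDiff_id, fun x _ => rfl, fun x _ => by simp [tube], fun x _ => ?_, fun x hx => ?_⟩
    · have : fderiv ℝ (tube (cell g τ e) 0) x = 1 := fderiv_id
      rw [this]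
      exact one_mem_Cl hκ1
    · refine ⟨0, by simp, ?_⟩
      simp [tube]
      exact Or.inr hx
  | succ N ih =>
    obtain ⟨h1, h2, h3, h4, h5⟩ := ih
    have hfar : ∀ x : E, 1 ≤ 2 * ‖x‖ → tube (cell g τ e) (N + 1) x = cell g τ e x := by
      intro x hx
      simp only [tube]
      rw [h2 _ (by rw [hn2]; exact hx)]
      abel
    have hnear : ∀ x : E, ‖x‖ ^ 2 ≤ 3 / 4 → tube (cell g τ e) (N + 1) x =
        tube (cell g τ e) N ((2 : ℝ) • x) - τ • e := by
      intro x hx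
      simp only [tube]
      rw [cell_near hgb hx]
      abel
    refine ⟨?_, ?_, ?_, ?_, ?_⟩
    · exact (hcc.add (h1.comp (contDiff_const_smul 2))).sub (contDiff_const_smul 2)
    · intro x hx
      rw [hfar x (by linarith), cell_far hT hτ hga he hx]
    · intro x hx
      have hx' : 2 ^ N * ‖(2 : ℝ) • x‖ ≤ 1 := by rw [hn2]; rw [pow_succ] at hx; linarith
      have hx1 : 2 * ‖x‖ ≤ 1 := by
        have h6 : (1 : ℝ) ≤ 2 ^ N := one_le_pow₀ (by norm_num)
        have h7 := norm_nonneg ((2 : ℝ) • x)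
        rw [hn2] at hx' h7
        nlinarith
      rw [hnear x (by nlinarith [norm_nonneg x]), h3 _ hx', smul_smul]
      push_cast
      rw [pow_succ]
      module
    · intro x hx
      have h2x : HasFDerivAt (fun x : E => (2 : ℝ) • x) ((2 : ℝ) • (1 : E →L[ℝ] E)) x :=
        (hasFDerivAt_id x).const_smul _
      by_cases hx1 : 1 < 2 * ‖x‖
      · have : tube (cell g τ e) (N + 1) =ᶠ[𝓝 x] cell g τ e := by
          have ho : {y : E | 1 < 2 * ‖y‖} ∈ 𝓝 x :=
            (isOpen_lt continuous_const (by fun_prop)).mem_nhds hx1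
          filter_upwards [ho] with y hy
          exact hfar y (le_of_lt hy)
        rw [this.fderiv_eq]
        exact cell_mem_Cl hT hτ hga hgc hgs he hM0 hM hx
      · have : tube (cell g τ e) (N + 1) =ᶠ[𝓝 x]
            fun x => tube (cell g τ e) N ((2 : ℝ) • x) - τ • e := by
          have ho : {y : E | ‖y‖ ^ 2 < 3 / 4} ∈ 𝓝 x :=
            (isOpen_lt (by fun_prop) continuous_const).mem_nhds (by
              show ‖x‖ ^ 2 < 3 / 4
              nlinarith [norm_nonneg x, not_lt.1 hx1])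
          filter_upwards [ho] with y hy
          exact hnear y (le_of_lt hy)
        rw [this.fderiv_eq]
        have h6 : HasFDerivAt (tube (cell g τ e) N) (fderiv ℝ (tube (cell g τ e) N) ((2 : ℝ) • x))
            ((2 : ℝ) • x) := (h1.differentiable (by norm_num) _).hasFDerivAt
        have h7 : HasFDerivAt (fun x => tube (cell g τ e) N ((2 : ℝ) • x) - τ • e)
          ((fderiv ℝ (tube (cell g τ e) N) ((2 : ℝ) • x)) ∘L ((2 : ℝ) • (1 : E →L[ℝ] E))) x :=
          (h6.comp x h2x).sub_const _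
        rw [h7.fderiv]
        have h8 : (fderiv ℝ (tube (cell g τ e) N) ((2 : ℝ) • x)) ∘L ((2 : ℝ) • (1 : E →L[ℝ] E)) =
          (2 : ℝ) • fderiv ℝ (tube (cell g τ e) N) ((2 : ℝ) • x) := by
          ext v; simp
        rw [h8]
        refine smul_mem_Cl hκ1 (h4 _ ?_) (by norm_num)
        rw [inner_smul_left]
        simp only [conj_trivial]
        positivity
    · intro x hx
      by_cases hx1 : 1 ≤ 2 * ‖x‖
      · refine ⟨0, ⟨le_rfl, by positivity⟩, ?_⟩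
        rw [hfar x hx1]
        simp only [zero_mul, zero_smul, add_zero]
        exact (hcb x hx).trans (le_max_left _ _)
      · obtain ⟨t, ht, h6⟩ := h5 ((2 : ℝ) • x) (by rw [hn2]; linarith [not_le.1 hx1])
        refine ⟨t + 1, ⟨by linarith [ht.1], by push_cast; linarith [ht.2]⟩, ?_⟩
        rw [hnear x (by nlinarith [norm_nonneg x, not_le.1 hx1])]
        convert h6 using 2
        module

end Pool.Agent.Helper96.NatBdry
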