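import Mathlib

open Set Filter Topology Metric

namespace Pool.Agent.Helper96.NatBdry

variable {E : Type*} [NormedAddCommGroup E] [InnerProductSpace ℝ E]

/-- linear maps with distortion less than `κ` -/
def Qk (E : Type*) [NormedAddCommGroup E] [InnerProductSpace ℝ E] (κ : ℝ) :
    Set (E →L[ℝ] E) := {A | ∃ m : ℝ, ‖A‖ < κ * m ∧ ∀ x, m * ‖x‖ ≤ ‖A x‖}

theorem isOpen_Qk {κ : ℝ} (hκ : 1 < κ) : IsOpen (Qk E κ) := by
  rw [Metric.isOpen_iff]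
  rintro A ⟨m, hA, hm⟩
  have h1 : 0 < 2 * (1 + κ) := by linarith
  refine ⟨(κ * m - ‖A‖) / (2 * (1 + κ)), div_pos (by linarith) h1, ?_⟩
  intro B hB
  rw [mem_ball, dist_eq_norm] at hB
  set δ := (κ * m - ‖A‖) / (2 * (1 + κ)) with hδ
  have h2 : (1 + κ) * δ = (κ * m - ‖A‖) / 2 := by
    rw [hδ]; field_simp
  refine ⟨m - δ, ?_, ?_⟩
  · have h3 : ‖B‖ ≤ ‖A‖ + ‖B - A‖ := by
      calc ‖B‖ = ‖A + (B - A)‖ := by congr 1; abel
        _ ≤ _ := norm_add_le _ _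
    nlinarith
  · intro x
    have h4 : ‖(B - A) x‖ ≤ δ * ‖x‖ :=
      ((B - A).le_opNorm x).trans (mul_le_mul_of_nonneg_right hB.le (norm_nonneg _))
    have h5 : ‖A x‖ ≤ ‖B x‖ + ‖(B - A) x‖ := by
      calc ‖A x‖ = ‖B x - (B - A) x‖ := by congr 1; simp
        _ ≤ _ := norm_sub_le _ _
    have := hm x
    nlinarith

theorem one_mem_Qk {κ : ℝ} (hκ : 1 < κ) : (1 : E →L[ℝ] E) ∈ Qk E κ := by
  refine ⟨1, ?_, ?_⟩
  · have : ‖(1 : E →L[ℝ] E)‖ ≤ 1 := ContinuousLinearMap.norm_id_le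
    linarith
  · intro x; simp

theorem isom_mem_Qk {κ : ℝ} (hκ : 1 < κ) {U : E →L[ℝ] E} (hU : ∀ x, ‖U x‖ = ‖x‖) :
    U ∈ Qk E κ := by
  refine ⟨1, ?_, ?_⟩
  · have : ‖U‖ ≤ 1 := U.opNorm_le_bound zero_le_one (fun x => by rw [hU, one_mul])
    linarith
  · intro x; simp [hU]

theorem smul_mem_Qk {κ : ℝ} {A : E →L[ℝ] E} (hA : A ∈ Qk E κ) {c : ℝ} (hc : 0 < c) :
    c • A ∈ Qk E κ := by
  obtain ⟨m, h1, h2⟩ := hA
  refine ⟨c * m, ?_, ?_⟩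
  · rw [norm_smul, Real.norm_of_nonneg hc.le]
    nlinarith
  · intro x
    rw [ContinuousLinearMap.smul_apply, norm_smul, Real.norm_of_nonneg hc.le]
    have := h2 x
    nlinarith

/-- composition of two maps: distortions multiply -/
theorem comp_mem_Qk {κ κ' : ℝ} (hκ' : 0 < κ') {A B : E →L[ℝ] E} (hA : A ∈ Qk E κ)
    (hB : B ∈ Qk E κ') (hκ : 0 < κ) : A ∘L B ∈ Qk E (κ * κ') := by
  obtain ⟨m, h1, h2⟩ := hA
  obtain ⟨m', h1', h2'⟩ := hB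
  have hm : 0 < m := by
    have := norm_nonneg A
    by_contra h
    nlinarith
  have hm' : 0 < m' := by
    have := norm_nonneg B
    by_contra h
    nlinarith
  refine ⟨m * m', ?_, ?_⟩
  · calc ‖A ∘L B‖ ≤ ‖A‖ * ‖B‖ := A.opNorm_comp_le B
      _ ≤ (κ * m) * ‖B‖ := by gcongr
      _ < (κ * m) * (κ' * m') := by gcongr
      _ = _ := by ring
  · intro x
    calc m * m' * ‖x‖ = m * (m' * ‖x‖) := by ring
      _ ≤ m * ‖B x‖ := by gcongr; exact h2' x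
      _ ≤ ‖A (B x)‖ := h2 _

theorem isom_comp_mem_Qk {κ : ℝ} {U A : E →L[ℝ] E} (hU : ∀ x, ‖U x‖ = ‖x‖)
    (hA : A ∈ Qk E κ) : U ∘L A ∈ Qk E κ := by
  obtain ⟨m, h1, h2⟩ := hA
  refine ⟨m, ?_, ?_⟩
  · refine lt_of_le_of_lt ?_ h1
    refine ContinuousLinearMap.opNorm_le_bound _ (norm_nonneg _) fun x => ?_
    rw [ContinuousLinearMap.comp_apply, hU]
    exact A.le_opNorm x
  · intro x
    rw [ContinuousLinearMap.comp_apply, hU]
    exact h2 x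

/-- The component of the identity. -/
def Cl (E : Type*) [NormedAddCommGroup E] [InnerProductSpace ℝ E] (κ : ℝ) :
    Set (E →L[ℝ] E) := connectedComponentIn (Qk E κ) 1

theorem isOpen_Cl {κ : ℝ} (hκ : 1 < κ) : IsOpen (Cl E κ) :=
  (isOpen_Qk hκ).connectedComponentIn

theorem isPreconnected_Cl {κ : ℝ} : IsPreconnected (Cl E κ) :=
  isPreconnected_connectedComponentIn

theorem Cl_subset {κ : ℝ} : Cl E κ ⊆ Qk E κ := connectedComponentIn_subset _ _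

theorem one_mem_Cl {κ : ℝ} (hκ : 1 < κ) : (1 : E →L[ℝ] E) ∈ Cl E κ :=
  mem_connectedComponentIn (one_mem_Qk hκ)

theorem subset_Cl {κ : ℝ} {S : Set (E →L[ℝ] E)} (hS : IsPreconnected S)
    (hSQ : S ⊆ Qk E κ) {A : E →L[ℝ] E} (hA : A ∈ S) (hAC : A ∈ Cl E κ) : S ⊆ Cl E κ := by
  rw [Cl, connectedComponentIn_eq hAC]
  exact hS.subset_connectedComponentIn hA hSQ

theorem smul_mem_Cl {κ : ℝ} (hκ : 1 < κ) {A : E →L[ℝ] E} (hA : A ∈ Cl E κ) {c : ℝ}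
    (hc : 0 < c) : c • A ∈ Cl E κ := by
  have h1 : IsPreconnected ((fun t : ℝ => t • A) '' Ioi 0) :=
    isPreconnected_Ioi.image _ (by fun_prop)
  refine subset_Cl h1 ?_ (A := A) ?_ hA ⟨c, hc, rfl⟩
  · rintro _ ⟨t, ht, rfl⟩
    exact smul_mem_Qk (Cl_subset hA) ht
  · exact ⟨1, by simp, by simp⟩

theorem isom_comp_mem_Cl {κ : ℝ} (hκ : 1 < κ) {U A : E →L[ℝ] E} (hU : ∀ x, ‖U x‖ = ‖x‖)
    (hUC : U ∈ Cl E κ) (hA : A ∈ Cl E κ) : U ∘L A ∈ Cl E κ := by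
  have h1 : IsPreconnected ((fun B : E →L[ℝ] E => U ∘L B) '' Cl E κ) :=
    isPreconnected_Cl.image _ (by fun_prop)
  refine subset_Cl h1 ?_ (A := U) ?_ hUC ⟨A, hA, rfl⟩
  · rintro _ ⟨B, hB, rfl⟩
    exact isom_comp_mem_Qk hU (Cl_subset hB)
  · exact ⟨1, one_mem_Cl hκ, by ext; simp⟩

end Pool.Agent.Helper96.NatBdry
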