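import Pool.Agent.Helper96.NatBdry.Iterate

open Set Filter Topology Metric
open scoped RealInnerProductSpace

namespace Pool.Agent.Helper96.NatBdry

variable {E : Type*} [NormedAddCommGroup E] [InnerProductSpace ℝ E]

theorem Qk_pos {κ : ℝ} (hκ : 1 < κ) {A : E →L[ℝ] E} (hA : A ∈ Qk E κ) :
    0 < ‖A‖ ∨ Subsingleton E := by
  obtain ⟨m, h1, h2⟩ := hA
  by_cases hs : Subsingleton E
  · exact Or.inr hs
  · left
    rw [not_subsingleton_iff_nontrivial] at hs
    obtain ⟨x, hx⟩ := exists_ne (0 : E)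
    have hx0 : 0 < ‖x‖ := norm_pos_iff.2 hx
    have h3 := (h2 x).trans (A.le_opNorm x)
    have h4 : m ≤ ‖A‖ := le_of_mul_le_mul_right h3 hx0
    have h0 := norm_nonneg A
    by_contra h
    have h5 : ‖A‖ = 0 := le_antisymm (not_lt.1 h) h0
    nlinarith

theorem Qk_det_ne [FiniteDimensional ℝ E] {κ : ℝ} (hκ : 1 < κ) {A : E →L[ℝ] E}
    (hA : A ∈ Qk E κ) : A.det ≠ 0 := by
  obtain ⟨m, h1, h2⟩ := hA
  have hm : 0 < m := by
    have := norm_nonneg A
    by_contra h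
    nlinarith
  have hinj : Function.Injective (A : E →ₗ[ℝ] E) := by
    rw [injective_iff_map_eq_zero]
    intro x hx
    have h3 := h2 x
    have h4 : A x = 0 := hx
    rw [h4, norm_zero] at h3
    have : ‖x‖ ≤ 0 := by
      by_contra h
      have := mul_pos hm (not_le.1 h)
      linarith
    simpa using this
  have hker : LinearMap.ker (A : E →ₗ[ℝ] E) = ⊥ := LinearMap.ker_eq_bot.2 hinj
  have hu : IsUnit (A : E →ₗ[ℝ] E) := (LinearMap.isUnit_iff_ker_eq_bot _).2 hker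
  have := (LinearMap.isUnit_iff_isUnit_det (A : E →ₗ[ℝ] E)).1 hu
  exact this.ne_zero

theorem Cl_det_pos [FiniteDimensional ℝ E] {κ : ℝ} (hκ : 1 < κ) {A : E →L[ℝ] E}
    (hA : A ∈ Cl E κ) : 0 < A.det := by
  by_contra h
  have h1 : (1 : E →L[ℝ] E).det = 1 := by
    simp [ContinuousLinearMap.det]
  have hc : ContinuousOn (fun A : E →L[ℝ] E => A.det) (Cl E κ) :=
    ContinuousLinearMap.continuous_det.continuousOn
  have := isPreconnected_Cl.intermediate_value (a := A) (b := 1) hA (one_mem_Cl hκ) hc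
  obtain ⟨B, hB, hB0⟩ := this ⟨not_lt.1 h, by simp only [h1]; exact zero_le_one⟩
  exact Qk_det_ne hκ (Cl_subset hB) hB0

theorem exists_det_bound [FiniteDimensional ℝ E] [Nontrivial E] {κ : ℝ} (hκ : 1 < κ) :
    ∃ K : ℝ, 1 ≤ K ∧ ∀ A ∈ Cl E κ, ‖A‖ ^ Module.finrank ℝ E ≤ K * A.det := by
  set S : Set (E →L[ℝ] E) := {A | ‖A‖ = 1 ∧ ∀ x, ‖x‖ ≤ κ * ‖A x‖} with hS
  have hprop : ProperSpace (E →L[ℝ] E) := FiniteDimensional.proper ℝ (E →L[ℝ] E)
  have hScl : IsClosed S := by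
    rw [hS, Set.ofPred_and]
    refine (isClosed_eq continuous_norm continuous_const).inter ?_
    rw [Set.ofPred_forall]
    refine isClosed_iInter fun x => isClosed_le continuous_const ?_
    fun_prop
  have hScomp : IsCompact S := by
    refine (isCompact_closedBall (0 : E →L[ℝ] E) 1).of_isClosed_subset hScl ?_
    intro A hA
    rw [mem_closedBall_zero_iff]
    exact hA.1.le
  have hSdet : ∀ A ∈ S, A.det ≠ 0 := by
    intro A hA
    have hmem : A ∈ Qk E (2 * κ) := by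
      refine ⟨κ⁻¹, ?_, fun x => ?_⟩
      · rw [hA.1, mul_assoc, mul_inv_cancel₀ (by linarith)]
        norm_num
      · rw [inv_mul_le_iff₀ (by linarith)]
        exact hA.2 x
    exact Qk_det_ne (by linarith) hmem
  have hc : ContinuousOn (fun A : E →L[ℝ] E => A.det⁻¹) S :=
    ContinuousLinearMap.continuous_det.continuousOn.inv₀ hSdet
  obtain ⟨K, hK⟩ := hScomp.exists_bound_of_continuousOn hc
  refine ⟨max K 1, le_max_right _ _, fun A hA => ?_⟩
  have hdet := Cl_det_pos hκ hA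
  have hAn : 0 < ‖A‖ := by
    rcases Qk_pos hκ (Cl_subset hA) with h | h
    · exact h
    · exact absurd h (not_subsingleton E)
  have hA' : ‖A‖⁻¹ • A ∈ S := by
    obtain ⟨m, h1, h2⟩ := Cl_subset hA
    refine ⟨?_, fun x => ?_⟩
    · rw [norm_smul, norm_inv, norm_norm, inv_mul_cancel₀ hAn.ne']
    · have h3 : ‖(‖A‖⁻¹ • A) x‖ = ‖A‖⁻¹ * ‖A x‖ := by
        rw [smul_apply, norm_smul, norm_inv, norm_norm]
      rw [h3, ← mul_assoc, mul_comm κ, mul_assoc]
      rw [← div_eq_inv_mul, le_div_iff₀ hAn]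
      calc ‖x‖ * ‖A‖ ≤ ‖x‖ * (κ * m) := by gcongr
        _ = κ * (m * ‖x‖) := by ring
        _ ≤ κ * ‖A x‖ := by
          have := h2 x
          gcongr
  have h4 := hK _ hA'
  have h5 : (‖A‖⁻¹ • A).det = (‖A‖⁻¹) ^ Module.finrank ℝ E * A.det := by
    have : ((‖A‖⁻¹ • A : E →L[ℝ] E) : E →ₗ[ℝ] E) = ‖A‖⁻¹ • (A : E →ₗ[ℝ] E) := rfl
    rw [ContinuousLinearMap.det, this, LinearMap.det_smul]
  rw [h5, norm_inv, norm_mul, norm_pow, norm_inv, norm_norm, Real.norm_of_nonneg hdet.le,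
    mul_inv, inv_pow, inv_inv, ← div_eq_mul_inv, div_le_iff₀ hdet] at h4
  exact h4.trans (by gcongr; exact le_max_left _ _)

end Pool.Agent.Helper96.NatBdry
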