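import Pool.Agent.Helper96.NatBdry.Step

open Set Filter Topology Metric
open scoped RealInnerProductSpace

namespace Pool.Agent.Helper96.NatBdry

variable {E : Type*} [NormedAddCommGroup E] [InnerProductSpace ℝ E]

theorem good_id {κ : ℝ} (hκ : 1 < κ) : Good κ (fun x : E => x) := by
  refine ⟨contDiff_id, fun x hx => ⟨?_, by linarith⟩⟩
  have : fderiv ℝ (fun x : E => x) x = 1 := fderiv_id
  rw [this]
  exact one_mem_Cl hκ

theorem exists_seq [FiniteDimensional ℝ E] (hn : 2 ≤ Module.finrank ℝ E)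
    (b : ℕ → E) (hb : ∀ k, ‖b k‖ = 1) :
    ∃ κ : ℝ, 1 < κ ∧ ∃ (f : ℕ → E → E) (r : ℕ → ℝ), (∀ k, Good κ (f k)) ∧ (∀ k, r k < 1) ∧
      (∀ k, r k ≤ r (k + 1)) ∧ (∀ k : ℕ, 1 - 1 / ((k : ℝ) + 1) ≤ r (k + 1)) ∧
      (∀ k x, ‖x‖ ≤ r k → f (k + 1) x = f k x) ∧
      (∀ k : ℕ, ∃ x₁ x₂ : E, ‖x₁‖ ≤ r (k + 1) ∧ ‖x₂‖ ≤ r (k + 1) ∧ ‖x₁ - b k‖ < 1 / ((k : ℝ) + 1) ∧
        ‖x₂ - b k‖ < 1 / ((k : ℝ) + 1) ∧ 1 / 2 ≤ ‖f (k + 1) x₁ - f (k + 1) x₂‖) := by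
  obtain ⟨κ, hκ, τ, hτ, R, hR, htube⟩ := exists_tube (E := E)
  have hstep : ∀ (k : ℕ) (s : {p : (E → E) × ℝ // Good κ p.1 ∧ p.2 < 1}),
      ∃ s' : {p : (E → E) × ℝ // Good κ p.1 ∧ p.2 < 1}, s.1.2 ≤ s'.1.2 ∧
        1 - 1 / ((k : ℝ) + 1) ≤ s'.1.2 ∧ (∀ x, ‖x‖ ≤ s.1.2 → s'.1.1 x = s.1.1 x) ∧
        ∃ x₁ x₂ : E, ‖x₁‖ ≤ s'.1.2 ∧ ‖x₂‖ ≤ s'.1.2 ∧ ‖x₁ - b k‖ < 1 / ((k : ℝ) + 1) ∧
          ‖x₂ - b k‖ < 1 / ((k : ℝ) + 1) ∧ 1 / 2 ≤ ‖s'.1.1 x₁ - s'.1.1 x₂‖ := by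
    rintro k ⟨⟨f, r⟩, hf, hr⟩
    simp only at hf hr
    have hk : (0 : ℝ) < 1 / ((k : ℝ) + 1) := by positivity
    obtain ⟨f', hf', h1, x₁, x₂, h2, h3, h4, h5, h6⟩ :=
      modification hn hκ hτ hR htube hf (hb k) (ε := min (1 - r) (1 / ((k : ℝ) + 1)))
        (lt_min (by linarith) hk)
    refine ⟨⟨⟨f', max (max r (1 - 1 / ((k : ℝ) + 1))) (max ‖x₁‖ ‖x₂‖)⟩, hf', ?_⟩, ?_, ?_, ?_,
      x₁, x₂, ?_, ?_, ?_, ?_, ?_⟩
    · exact max_lt (max_lt hr (by linarith)) (max_lt h2 h3)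
    · exact (le_max_left _ _).trans (le_max_left _ _)
    · exact (le_max_right _ _).trans (le_max_left _ _)
    · intro x hx
      apply h1
      refine (min_le_left _ _).trans ?_
      have h7 : ‖b k‖ ≤ ‖x‖ + ‖x - b k‖ := by
        calc ‖b k‖ = ‖x - (x - b k)‖ := by congr 1; abel
          _ ≤ _ := norm_sub_le _ _
      rw [hb k] at h7
      simp only at hx
      linarith
    · exact (le_max_left _ _).trans (le_max_right _ _)
    · exact (le_max_right _ _).trans (le_max_right _ _)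
    · exact h4.trans_le (min_le_right _ _)
    · exact h5.trans_le (min_le_right _ _)
    · exact h6
  choose nxt hnxt using hstep
  let s : ℕ → {p : (E → E) × ℝ // Good κ p.1 ∧ p.2 < 1} := fun k =>
    Nat.rec ⟨⟨fun x => x, 0⟩, good_id hκ, zero_lt_one⟩ (fun k s => nxt k s) k
  have hs : ∀ k, s (k + 1) = nxt k (s k) := fun k => rfl
  refine ⟨κ, hκ, fun k => (s k).1.1, fun k => (s k).1.2, fun k => (s k).2.1, fun k => (s k).2.2,
    ?_, ?_, ?_, ?_⟩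
  · intro k
    simp only [hs]
    exact (hnxt k (s k)).1
  · intro k
    simp only [hs]
    exact (hnxt k (s k)).2.1
  · intro k
    simp only [hs]
    exact (hnxt k (s k)).2.2.1
  · intro k
    simp only [hs]
    exact (hnxt k (s k)).2.2.2

theorem exists_map [FiniteDimensional ℝ E] (hn : 2 ≤ Module.finrank ℝ E) :
    ∃ κ : ℝ, 1 < κ ∧ ∃ F : E → E,
      (∀ ρ : ℝ, ρ < 1 → ∃ f : E → E, Good κ f ∧ ∀ x, ‖x‖ ≤ ρ → F x = f x) ∧
      ∀ b : E, ‖b‖ = 1 → ∀ δ : ℝ, 0 < δ → ∃ x₁ x₂ : E, ‖x₁‖ < 1 ∧ ‖x₂‖ < 1 ∧ ‖x₁ - b‖ < δ ∧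
        ‖x₂ - b‖ < δ ∧ 1 / 2 ≤ ‖F x₁ - F x₂‖ := by
  classical
  have hnt : Nontrivial E := Module.nontrivial_of_finrank_pos (R := ℝ) (by omega)
  have hne : Nonempty (sphere (0 : E) 1) := (NormedSpace.sphere_nonempty.2 zero_le_one).to_subtype
  set d : ℕ → sphere (0 : E) 1 := TopologicalSpace.denseSeq (sphere (0 : E) 1) with hd
  have hdn : ∀ j, ‖(d j : E)‖ = 1 := fun j => by
    have := (d j).2
    rwa [mem_sphere_zero_iff_norm] at this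
  obtain ⟨κ, hκ, f, r, hgood, hr1, hrm, hrk, hfe, hwit⟩ :=
    exists_seq hn (fun k => (d (Nat.unpair k).2 : E)) (fun k => hdn _)
  have hmono : Monotone r := monotone_nat_of_le_succ hrm
  have hstab : ∀ k m, k ≤ m → ∀ x, ‖x‖ ≤ r k → f m x = f k x := by
    intro k m hkm
    induction m, hkm using Nat.le_induction with
    | base => intro x _; rfl
    | succ m hm ih =>
      intro x hx
      rw [hfe m x (hx.trans (hmono hm)), ih x hx]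
  have hex : ∀ x : E, ‖x‖ < 1 → ∃ k, ‖x‖ ≤ r k := by
    intro x hx
    obtain ⟨k, hk⟩ := exists_nat_one_div_lt (sub_pos.2 hx)
    exact ⟨k + 1, by linarith [hrk k]⟩
  set F : E → E := fun x => if h : ∃ k, ‖x‖ ≤ r k then f (Nat.find h) x else 0 with hF
  have hFf : ∀ k x, ‖x‖ ≤ r k → F x = f k x := by
    intro k x hx
    have h : ∃ k, ‖x‖ ≤ r k := ⟨k, hx⟩
    rw [hF]
    simp only [h, dif_pos]
    exact (hstab _ _ (Nat.find_min' h hx) x (Nat.find_spec h)).symm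
  refine ⟨κ, hκ, F, ?_, ?_⟩
  · intro ρ hρ
    obtain ⟨k, hk⟩ := exists_nat_one_div_lt (sub_pos.2 hρ)
    refine ⟨f (k + 1), hgood _, fun x hx => hFf _ x (by linarith [hrk k])⟩
  · intro b hb δ hδ
    obtain ⟨m, hm⟩ := exists_nat_one_div_lt (half_pos hδ)
    have hdense := TopologicalSpace.denseRange_denseSeq (sphere (0 : E) 1)
    obtain ⟨j, hj⟩ := hdense.exists_dist_lt (⟨b, by rw [mem_sphere_zero_iff_norm]; exact hb⟩ :
      sphere (0 : E) 1) (half_pos hδ)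
    have hj' : ‖b - (d j : E)‖ < δ / 2 := by
      rw [← dist_eq_norm]
      exact hj
    set k := Nat.pair m j with hk
    obtain ⟨x₁, x₂, h1, h2, h3, h4, h5⟩ := hwit k
    have hkj : (Nat.unpair k).2 = j := by rw [hk, Nat.unpair_pair]
    have hmk : (m : ℝ) ≤ k := by exact_mod_cast Nat.left_le_pair m j
    have hkk : 1 / ((k : ℝ) + 1) < δ / 2 := lt_of_le_of_lt (by gcongr) hm
    simp only [hkj] at h3 h4
    have hclose : ∀ x : E, ‖x - d j‖ < 1 / ((k : ℝ) + 1) → ‖x - b‖ < δ := by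
      intro x hx
      calc ‖x - b‖ = ‖(x - d j) - (b - d j)‖ := by congr 1; abel
        _ ≤ ‖x - d j‖ + ‖b - (d j : E)‖ := norm_sub_le _ _
        _ < δ := by linarith
    refine ⟨x₁, x₂, h1.trans_lt (hr1 _), h2.trans_lt (hr1 _), hclose _ h3, hclose _ h4, ?_⟩
    rw [hFf _ _ h1, hFf _ _ h2]
    exact h5

end Pool.Agent.Helper96.NatBdry
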