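import Pool.Agent.Helper96.NatBdry.Cell

open Set Filter Topology Metric
open scoped RealInnerProductSpace

namespace Pool.Agent.Helper96.NatBdry

variable {E : Type*} [NormedAddCommGroup E] [InnerProductSpace ℝ E]

theorem replace {f : E → E} {b p : E} {A : E →L[ℝ] E} {ρ r : ℝ}
    (hf : ContDiff ℝ 1 f) (hfa : ∀ x, ‖x - b‖ ≤ ρ → f x = p + A (x - b)) {G : E → E}
    (hG : ContDiff ℝ 1 G) (hGA : ∀ y, r ≤ ‖y‖ → G y = A y) :
    ∃ f' : E → E, ContDiff ℝ 1 f' ∧ (∀ x, r ≤ ‖x - b‖ → f' x = f x) ∧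
      (∀ x, r < ‖x - b‖ → fderiv ℝ f' x = fderiv ℝ f x) ∧
      (∀ x, ‖x - b‖ < ρ → f' x = p + G (x - b) ∧ fderiv ℝ f' x = fderiv ℝ G (x - b)) := by
  refine ⟨fun x => f x + (G (x - b) - A (x - b)), ?_, ?_, ?_, ?_⟩
  · exact hf.add ((hG.comp (contDiff_id.sub contDiff_const)).sub
      (A.contDiff.comp (contDiff_id.sub contDiff_const)))
  · intro x hx
    simp [hGA _ hx]
  · intro x hx
    apply Filter.EventuallyEq.fderiv_eq
    have : {y : E | r < ‖y - b‖} ∈ 𝓝 x :=
      (isOpen_lt continuous_const (by fun_prop)).mem_nhds hx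
    filter_upwards [this] with y hy
    simp [hGA _ (le_of_lt hy)]
  · intro x hx
    have h1 : ∀ y, ‖y - b‖ < ρ → f y + (G (y - b) - A (y - b)) = p + G (y - b) := by
      intro y hy
      rw [hfa y hy.le]
      abel
    refine ⟨h1 x hx, ?_⟩
    have h2 : (fun x => f x + (G (x - b) - A (x - b))) =ᶠ[𝓝 x] fun x => p + G (x - b) := by
      have : {y : E | ‖y - b‖ < ρ} ∈ 𝓝 x :=
        (isOpen_lt (by fun_prop) continuous_const).mem_nhds hx
      filter_upwards [this] with y hy using h1 y hy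
    rw [h2.fderiv_eq]
    have h3 : HasFDerivAt (fun x => x - b) (ContinuousLinearMap.id ℝ E) x :=
      (hasFDerivAt_id x).sub_const b
    have h4 : HasFDerivAt G (fderiv ℝ G (x - b)) (x - b) :=
      (hG.differentiable (by norm_num) _).hasFDerivAt
    have h5 : HasFDerivAt (fun x => p + G (x - b))
      ((fderiv ℝ G (x - b)) ∘L (ContinuousLinearMap.id ℝ E)) x := (h4.comp x h3).const_add p
    rw [h5.fderiv]
    simp

/-- standard bump function -/
noncomputable def bump (y : E) : ℝ := Real.smoothTransition (4 * (1 - ‖y‖ ^ 2))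

theorem bump_contDiff : ContDiff ℝ 1 (bump : E → ℝ) :=
  Real.smoothTransition.contDiff.comp
    (contDiff_const.mul (contDiff_const.sub (contDiff_norm_sq ℝ)))

theorem bump_fderiv (y v : E) : fderiv ℝ bump y v = - (pc 1 y * ⟪y, v⟫) := by
  have h1 : HasFDerivAt (fun x : E => ‖x‖ ^ 2) ((2 : ℕ) • (innerSL ℝ y : E →L[ℝ] ℝ)) y :=
    (hasStrictFDerivAt_norm_sq y).hasFDerivAt
  have h2 : HasFDerivAt (fun x : E => 4 * (1 - ‖x‖ ^ 2))
      ((4 : ℝ) • (-((2 : ℕ) • (innerSL ℝ y : E →L[ℝ] ℝ)))) y := (h1.const_sub 1).const_mul 4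
  have h3 : HasFDerivAt bump _ y :=
    (sT_differentiable (4 * (1 - ‖y‖ ^ 2))).hasDerivAt.comp_hasFDerivAt y h2
  rw [h3.fderiv]
  simp [pc]
  ring

theorem bump_fderiv_norm {M : ℝ} (hM0 : 0 ≤ M)
    (hM : ∀ x, |deriv Real.smoothTransition x| ≤ M) (y : E) : ‖fderiv ℝ bump y‖ ≤ 8 * M := by
  refine ContinuousLinearMap.opNorm_le_bound _ (by positivity) fun v => ?_
  rw [bump_fderiv, norm_neg, Real.norm_eq_abs, abs_mul, abs_of_nonneg (pc_nonneg zero_le_one y)]
  have h1 := pc_nonneg (E := E) zero_le_one y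
  calc pc 1 y * |⟪y, v⟫| ≤ pc 1 y * (‖y‖ * ‖v‖) := by gcongr; exact abs_real_inner_le_norm y v
    _ = (pc 1 y * ‖y‖) * ‖v‖ := by ring
    _ ≤ (8 * 1 * M) * ‖v‖ :=
        mul_le_mul_of_nonneg_right (pc_bound zero_le_one hM0 hM y) (norm_nonneg v)
    _ = _ := by ring

theorem affine_mod {S : Set (E →L[ℝ] E)} (hS : IsOpen S) {f : E → E} (hf : ContDiff ℝ 1 f)
    {b : E} (hA : fderiv ℝ f b ∈ S) {δ ε : ℝ} (hδ : 0 < δ) (hε : 0 < ε) :
    ∃ ρ : ℝ, 0 < ρ ∧ ρ < ε ∧ ∃ f' : E → E, ContDiff ℝ 1 f' ∧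
      (∀ x, ε ≤ ‖x - b‖ → f' x = f x) ∧
      (∀ x, ‖x - b‖ ≤ ρ → f' x = f b + fderiv ℝ f b (x - b)) ∧
      (∀ x, (f' x = f x ∧ fderiv ℝ f' x = fderiv ℝ f x) ∨
        (‖f' x - f b‖ < δ ∧ fderiv ℝ f' x ∈ S)) := by
  obtain ⟨M, hM0, hM⟩ := sT_deriv_bound
  set A := fderiv ℝ f b with hAdef
  obtain ⟨ε₁, hε₁, hεS⟩ := Metric.isOpen_iff.1 hS A hA
  set ω : ℝ := ε₁ / (2 * (1 + 8 * M)) with hω
  have hMM : 0 < 1 + 8 * M := by positivity
  have hω0 : 0 < ω := by positivity
  have hω1 : ω * (1 + 8 * M) < ε₁ := by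
    rw [hω]
    have : ε₁ / (2 * (1 + 8 * M)) * (1 + 8 * M) = ε₁ / 2 := by field_simp
    rw [this]; linarith
  set h : E → E := fun x => f x - f b - A (x - b) with hh
  have hhc : ContDiff ℝ 1 h :=
    (hf.sub contDiff_const).sub (A.contDiff.comp (contDiff_id.sub contDiff_const))
  have hhd : ∀ x, HasFDerivAt h (fderiv ℝ f x - A) x := by
    intro x
    have h3 : HasFDerivAt (fun x => x - b) (ContinuousLinearMap.id ℝ E) x :=
      (hasFDerivAt_id x).sub_const b
    have h4 : HasFDerivAt (fun x => A (x - b)) (A ∘L ContinuousLinearMap.id ℝ E) x :=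
      A.hasFDerivAt.comp x h3
    have h5 := (((hf.differentiable (by norm_num) x).hasFDerivAt).sub_const (f b)).sub h4
    rw [ContinuousLinearMap.comp_id] at h5
    exact h5
  have hcont : Continuous (fun x => fderiv ℝ f x - A) :=
    (hf.continuous_fderiv (by norm_num)).sub continuous_const
  obtain ⟨r₀, hr₀, hr₀b⟩ := Metric.continuousAt_iff.1 (hcont.continuousAt (x := b)) ω hω0
  set L : ℝ := ‖A‖ + ω + 1 with hL
  have hL0 : 0 < L := by positivity
  set r : ℝ := min (min (r₀ / 2) (ε / 2)) (δ / (2 * L)) with hr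
  have hr0 : 0 < r := by positivity
  have hr1 : r < r₀ := lt_of_le_of_lt ((min_le_left _ _).trans (min_le_left _ _)) (by linarith)
  have hr2 : r < ε := lt_of_le_of_lt ((min_le_left _ _).trans (min_le_right _ _)) (by linarith)
  have hr3 : r * L < δ := by
    have : r ≤ δ / (2 * L) := min_le_right _ _
    calc r * L ≤ δ / (2 * L) * L := by gcongr
      _ = δ / 2 := by field_simp
      _ < δ := by linarith
  have hdh : ∀ x, ‖x - b‖ ≤ r → ‖fderiv ℝ f x - A‖ ≤ ω := by
    intro x hx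
    have := hr₀b (x := x) (by rw [dist_eq_norm]; linarith)
    rw [dist_eq_norm, ← hAdef, sub_self, sub_zero] at this
    exact this.le
  have hhb : ∀ x, ‖x - b‖ ≤ r → ‖h x‖ ≤ ω * r := by
    intro x hx
    have h1 : ‖h x - h b‖ ≤ ω * ‖x - b‖ := by
      refine (convex_closedBall b r).norm_image_sub_le_of_norm_hasFDerivWithin_le
        (f' := fun x => fderiv ℝ f x - A) (fun y _ => (hhd y).hasFDerivWithinAt) ?_ ?_ ?_
      · intro y hy
        rw [mem_closedBall, dist_eq_norm] at hy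
        exact hdh y hy
      · exact mem_closedBall_self hr0.le
      · rw [mem_closedBall, dist_eq_norm]; exact hx
    have h2 : h b = 0 := by simp [hh]
    rw [h2, sub_zero] at h1
    exact h1.trans (by gcongr)
  set χ : E → ℝ := fun x => bump (r⁻¹ • (x - b)) with hχ
  have hχc : ContDiff ℝ 1 χ :=
    bump_contDiff.comp ((contDiff_const_smul _).comp (contDiff_id.sub contDiff_const))
  have hχd : ∀ x, HasFDerivAt χ (r⁻¹ • fderiv ℝ bump (r⁻¹ • (x - b))) x := by
    intro x
    have h3 : HasFDerivAt (fun x => r⁻¹ • (x - b)) (r⁻¹ • ContinuousLinearMap.id ℝ E) x :=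
      ((hasFDerivAt_id x).sub_const b).const_smul _
    have h4 := (bump_contDiff.differentiable (by norm_num) (r⁻¹ • (x - b))).hasFDerivAt.comp x h3
    have h5 : (fderiv ℝ bump (r⁻¹ • (x - b))).comp (r⁻¹ • ContinuousLinearMap.id ℝ E) =
      r⁻¹ • fderiv ℝ bump (r⁻¹ • (x - b)) := by
      ext v; simp
    rw [h5] at h4
    exact h4
  have hχn : ∀ x, ‖fderiv ℝ χ x‖ ≤ r⁻¹ * (8 * M) := by
    intro x
    rw [(hχd x).fderiv, norm_smul, Real.norm_of_nonneg (by positivity)]
    gcongr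
    exact bump_fderiv_norm hM0 hM _
  have hnorm : ∀ x : E, ‖r⁻¹ • (x - b)‖ = r⁻¹ * ‖x - b‖ := fun x => by
    rw [norm_smul, Real.norm_of_nonneg (by positivity)]
  have hχ0 : ∀ x, r ≤ ‖x - b‖ → χ x = 0 := by
    intro x hx
    rw [hχ]
    apply Real.smoothTransition.zero_of_nonpos
    have : 1 ≤ ‖r⁻¹ • (x - b)‖ := by
      rw [hnorm, inv_mul_eq_div, one_le_div hr0]; exact hx
    nlinarith
  have hχ1 : ∀ x, ‖x - b‖ ≤ r / 2 → χ x = 1 := by
    intro x hx
    rw [hχ]
    apply Real.smoothTransition.one_of_one_le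
    have : ‖r⁻¹ • (x - b)‖ ≤ 1 / 2 := by
      rw [hnorm, inv_mul_eq_div, div_le_iff₀ hr0]; linarith
    nlinarith [norm_nonneg (r⁻¹ • (x - b))]
  have hfd : ∀ x, HasFDerivAt (fun x => f x - χ x • h x)
      (fderiv ℝ f x - (χ x • (fderiv ℝ f x - A) + (fderiv ℝ χ x).smulRight (h x))) x := by
    intro x
    exact (hf.differentiable (by norm_num) x).hasFDerivAt.sub
      ((hχc.differentiable (by norm_num) x).hasFDerivAt.fun_smul (hhd x))
  refine ⟨r / 2, by positivity, by linarith, fun x => f x - χ x • h x, ?_, ?_, ?_, ?_⟩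
  · exact hf.sub (hχc.smul hhc)
  · intro x hx
    simp [hχ0 x (by linarith)]
  · intro x hx
    simp only [hχ1 x hx, hh, one_smul]
    abel
  · intro x
    by_cases hx : r < ‖x - b‖
    · left
      refine ⟨by simp [hχ0 x hx.le], ?_⟩
      apply Filter.EventuallyEq.fderiv_eq
      have : {y : E | r < ‖y - b‖} ∈ 𝓝 x :=
        (isOpen_lt continuous_const (by fun_prop)).mem_nhds hx
      filter_upwards [this] with y hy
      simp [hχ0 y (le_of_lt hy)]
    · right
      have hx' := not_lt.1 hx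
      have hc0 : 0 ≤ χ x := Real.smoothTransition.nonneg _
      have hc1 : χ x ≤ 1 := Real.smoothTransition.le_one _
      constructor
      · have h1 : f x - χ x • h x - f b = A (x - b) + (1 - χ x) • h x := by
          simp only [hh]
          module
        rw [h1]
        calc ‖A (x - b) + (1 - χ x) • h x‖ ≤ ‖A (x - b)‖ + ‖(1 - χ x) • h x‖ := norm_add_le _ _
          _ ≤ ‖A‖ * ‖x - b‖ + 1 * (ω * r) := by
              gcongr
              · exact A.le_opNorm _
              · rw [norm_smul, Real.norm_of_nonneg (by linarith)]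
                have := hhb x hx'
                have h0 := norm_nonneg (h x)
                nlinarith
          _ ≤ ‖A‖ * r + 1 * (ω * r) := by gcongr
          _ ≤ r * L := by rw [hL]; nlinarith
          _ < δ := hr3
      · rw [(hfd x).fderiv]
        apply hεS
        rw [mem_ball, dist_eq_norm]
        have h1 : fderiv ℝ f x - (χ x • (fderiv ℝ f x - A) + (fderiv ℝ χ x).smulRight (h x)) - A =
          (1 - χ x) • (fderiv ℝ f x - A) - (fderiv ℝ χ x).smulRight (h x) := by
          module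
        rw [h1]
        calc ‖(1 - χ x) • (fderiv ℝ f x - A) - (fderiv ℝ χ x).smulRight (h x)‖
            ≤ ‖(1 - χ x) • (fderiv ℝ f x - A)‖ + ‖(fderiv ℝ χ x).smulRight (h x)‖ :=
              norm_sub_le _ _
          _ ≤ 1 * ω + (r⁻¹ * (8 * M)) * (ω * r) := by
              gcongr
              · rw [norm_smul, Real.norm_of_nonneg (by linarith)]
                have := hdh x hx'
                have h0 := norm_nonneg (fderiv ℝ f x - A)
                nlinarith
              · rw [ContinuousLinearMap.norm_smulRight_apply]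
                have h2 := hχn x
                have h3 := hhb x hx'
                gcongr
          _ = ω * (1 + 8 * M) := by field_simp
          _ < ε₁ := hω1

end Pool.Agent.Helper96.NatBdry
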