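import Pool.Agent.Helper96.NatBdry.Rot

open Set Filter Topology Metric
open scoped RealInnerProductSpace

namespace Pool.Agent.Helper96.NatBdry

variable {E : Type*} [NormedAddCommGroup E] [InnerProductSpace ℝ E]

theorem sT_differentiable : Differentiable ℝ Real.smoothTransition :=
  (Real.smoothTransition.contDiff (n := 1)).differentiable (by norm_num)

theorem sT_deriv_bound : ∃ M : ℝ, 0 ≤ M ∧ ∀ x, |deriv Real.smoothTransition x| ≤ M := by
  have hc : Continuous (deriv Real.smoothTransition) :=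
    (Real.smoothTransition.contDiff (n := 1)).continuous_deriv (by norm_num)
  obtain ⟨M, hM⟩ := (isCompact_Icc (a := (0 : ℝ)) (b := 1)).exists_bound_of_continuousOn
    hc.continuousOn
  refine ⟨max M 0, le_max_right _ _, fun x => ?_⟩
  by_cases h0 : x < 0
  · have : Real.smoothTransition =ᶠ[𝓝 x] fun _ => (0 : ℝ) := by
      filter_upwards [Iio_mem_nhds h0] with y hy
      exact Real.smoothTransition.zero_of_nonpos hy.le
    rw [this.deriv_eq]
    simp
  by_cases h1 : 1 < x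
  · have : Real.smoothTransition =ᶠ[𝓝 x] fun _ => (1 : ℝ) := by
      filter_upwards [Ioi_mem_nhds h1] with y hy
      exact Real.smoothTransition.one_of_one_le hy.le
    rw [this.deriv_eq]
    simp
  · exact (hM x ⟨not_lt.1 h0, not_lt.1 h1⟩).trans (le_max_left _ _)

/-- rescaled map -/
theorem hasFDerivAt_scale {r : ℝ} (hr : r ≠ 0) {g : E → E} (hg : ContDiff ℝ 1 g) (x : E) :
    HasFDerivAt (fun x => r • g (r⁻¹ • x)) (fderiv ℝ g (r⁻¹ • x)) x := by
  have h1 : HasFDerivAt (fun x : E => r⁻¹ • x) (r⁻¹ • ContinuousLinearMap.id ℝ E) x :=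
    (hasFDerivAt_id x).const_smul _
  have h2 : HasFDerivAt g (fderiv ℝ g (r⁻¹ • x)) (r⁻¹ • x) :=
    (hg.differentiable (by norm_num) _).hasFDerivAt
  have h3 := (h2.comp x h1).const_smul r
  have h4 : r • (fderiv ℝ g (r⁻¹ • x)).comp (r⁻¹ • ContinuousLinearMap.id ℝ E) =
      fderiv ℝ g (r⁻¹ • x) := by
    ext v
    simp [smul_smul, hr]
  rw [h4] at h3
  exact h3

theorem contDiff_scale {r : ℝ} {g : E → E} (hg : ContDiff ℝ 1 g) :
    ContDiff ℝ 1 (fun x => r • g (r⁻¹ • x)) := by fun_prop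

/-- `A` can be changed to `B` near the origin, with all derivatives in `S` -/
def Reach (S : Set (E →L[ℝ] E)) (A B : E →L[ℝ] E) : Prop :=
  ∃ ρ : ℝ, 0 < ρ ∧ ρ < 1 ∧ ∃ g : E → E, ContDiff ℝ 1 g ∧ (∀ x, 1 ≤ ‖x‖ → g x = A x) ∧
    (∀ x, ‖x‖ ≤ ρ → g x = B x) ∧ ∀ x, fderiv ℝ g x ∈ S

theorem fderiv_of_eqOn_open {g : E → E} {B : E →L[ℝ] E} {s : Set E} (hs : IsOpen s)
    (h : ∀ x ∈ s, g x = B x) {x : E} (hx : x ∈ s) : fderiv ℝ g x = B := by
  have : g =ᶠ[𝓝 x] B := by
    filter_upwards [hs.mem_nhds hx] with y hy using h y hy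
  rw [this.fderiv_eq]
  exact B.fderiv

theorem Reach.trans {S : Set (E →L[ℝ] E)} {A B C : E →L[ℝ] E} (h1 : Reach S A B)
    (h2 : Reach S B C) : Reach S A C := by
  obtain ⟨ρ₁, h10, h11, g₁, h1c, h1a, h1b, h1s⟩ := h1
  obtain ⟨ρ₂, h20, h21, g₂, h2c, h2a, h2b, h2s⟩ := h2
  set r := ρ₁ / 2 with hr
  have hr0 : 0 < r := by positivity
  have hrr : r < ρ₁ := by rw [hr]; linarith
  set G : E → E := fun x => r • g₂ (r⁻¹ • x) with hG
  have hGc : ContDiff ℝ 1 G := contDiff_scale h2c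
  have hnorm : ∀ x : E, ‖r⁻¹ • x‖ = r⁻¹ * ‖x‖ := fun x => by
    rw [norm_smul, Real.norm_of_nonneg (by positivity)]
  have hGB : ∀ x, r ≤ ‖x‖ → G x = B x := by
    intro x hx
    have : 1 ≤ ‖r⁻¹ • x‖ := by
      rw [hnorm, inv_mul_eq_div, one_le_div hr0]; exact hx
    rw [hG]
    simp only
    rw [h2a _ this, map_smul, smul_smul, mul_inv_cancel₀ hr0.ne', one_smul]
  have hGC : ∀ x, ‖x‖ ≤ r * ρ₂ → G x = C x := by
    intro x hx
    have : ‖r⁻¹ • x‖ ≤ ρ₂ := by
      rw [hnorm, inv_mul_le_iff₀ hr0]; exact hx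
    rw [hG]
    simp only
    rw [h2b _ this, map_smul, smul_smul, mul_inv_cancel₀ hr0.ne', one_smul]
  have hd : ∀ x, HasFDerivAt (fun x => g₁ x + G x - B x)
      (fderiv ℝ g₁ x + fderiv ℝ G x - B) x := by
    intro x
    exact ((h1c.differentiable (by norm_num) x).hasFDerivAt.add
      (hGc.differentiable (by norm_num) x).hasFDerivAt).sub B.hasFDerivAt
  refine ⟨r * ρ₂, by positivity, by nlinarith, fun x => g₁ x + G x - B x, ?_, ?_, ?_, ?_⟩
  · exact (h1c.add hGc).sub B.contDiff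
  · intro x hx
    simp only
    rw [hGB x (by linarith), h1a x hx]
    simp
  · intro x hx
    simp only
    rw [hGC x hx, h1b x (by nlinarith)]
    simp
  · intro x
    rw [(hd x).fderiv]
    by_cases hx : ‖x‖ < ρ₁
    · have h3 : fderiv ℝ g₁ x = B := by
        refine fderiv_of_eqOn_open (s := ball 0 ρ₁) isOpen_ball (fun y hy => h1b y ?_) ?_
        · rw [mem_ball_zero_iff] at hy; exact hy.le
        · rwa [mem_ball_zero_iff]
      rw [h3, (hasFDerivAt_scale hr0.ne' h2c x).fderiv]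
      simpa using h2s _
    · have h3 : fderiv ℝ G x = B := by
        have ho : IsOpen {y : E | r < ‖y‖} := isOpen_lt continuous_const continuous_norm
        refine fderiv_of_eqOn_open ho (fun y hy => hGB y (le_of_lt hy)) ?_
        show r < ‖x‖
        linarith [not_lt.1 hx]
      rw [h3]
      simpa using h1s x

theorem reach_segment {S : Set (E →L[ℝ] E)} (hS : IsOpen S) {A B : E →L[ℝ] E}
    (hAB : ∀ t ∈ Icc (0 : ℝ) 1, A + t • (B - A) ∈ S) : Reach S A B := by
  set K : Set (E →L[ℝ] E) := (fun t : ℝ => A + t • (B - A)) '' Icc 0 1 with hK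
  have hKc : IsCompact K := isCompact_Icc.image (by fun_prop)
  have hKS : K ⊆ S := by
    rintro _ ⟨t, ht, rfl⟩
    exact hAB t ht
  obtain ⟨δ, hδ, hδS⟩ := hKc.exists_cthickening_subset_open hS hKS
  obtain ⟨M, hM0, hM⟩ := sT_deriv_bound
  set D := ‖B - A‖ with hD
  have hD0 : 0 ≤ D := norm_nonneg _
  set ε : ℝ := δ / (2 * M * D + 1) with hε
  have hden : 0 < 2 * M * D + 1 := by positivity
  have hε0 : 0 < ε := by positivity
  have hεδ : 2 * M * D * ε ≤ δ := by
    rw [hε, mul_div_assoc']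
    rw [div_le_iff₀ hden]
    nlinarith [mul_nonneg hM0 hD0]
  set η : ℝ := Real.exp (-ε⁻¹) / 2 with hη
  have hη0 : 0 < η := by positivity
  have hη1 : η < 1 := by
    have : Real.exp (-ε⁻¹) ≤ 1 := Real.exp_le_one_iff.2 (by
      have : 0 < ε⁻¹ := by positivity
      linarith)
    rw [hη]; linarith
  set u : E → ℝ := fun x => -(ε * Real.log (‖x‖ ^ 2 + η)) with hu
  have hpos : ∀ x : E, 0 < ‖x‖ ^ 2 + η := fun x => by positivity
  set χ : E → ℝ := fun x => Real.smoothTransition (u x) with hχ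
  have huc : ContDiff ℝ 1 u := by
    rw [hu]
    have h1 : ContDiff ℝ 1 (fun x : E => ‖x‖ ^ 2 + η) := (contDiff_norm_sq ℝ).add contDiff_const
    exact (contDiff_const.mul (h1.log fun x => (hpos x).ne')).neg
  have hχc : ContDiff ℝ 1 χ := Real.smoothTransition.contDiff.comp huc
  have hd : ∀ x, HasFDerivAt (fun x => A x + χ x • (B - A) x)
      (A + (χ x • (B - A) + (fderiv ℝ χ x).smulRight ((B - A) x))) x := by
    intro x
    exact A.hasFDerivAt.add ((hχc.differentiable (by norm_num) x).hasFDerivAt.fun_smul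
      (B - A).hasFDerivAt)
  have hdu : ∀ x, HasFDerivAt u
      (-(ε • ((‖x‖ ^ 2 + η)⁻¹ • ((2 : ℕ) • (innerSL ℝ x : E →L[ℝ] ℝ))))) x := by
    intro x
    have h1 : HasFDerivAt (fun x : E => ‖x‖ ^ 2 + η) ((2 : ℕ) • (innerSL ℝ x : E →L[ℝ] ℝ)) x :=
      (hasStrictFDerivAt_norm_sq x).hasFDerivAt.add_const η
    exact ((h1.log (hpos x).ne').const_mul ε).neg
  have hbound : ∀ x, ‖(fderiv ℝ χ x).smulRight ((B - A) x)‖ ≤ δ := by
    intro x
    have h1 : HasFDerivAt χ (deriv Real.smoothTransition (u x) •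
        (-(ε • ((‖x‖ ^ 2 + η)⁻¹ • ((2 : ℕ) • (innerSL ℝ x : E →L[ℝ] ℝ)))))) x :=
      (sT_differentiable (u x)).hasDerivAt.comp_hasFDerivAt x (hdu x)
    rw [h1.fderiv, ContinuousLinearMap.norm_smulRight_apply, norm_smul, norm_neg, norm_smul,
      norm_smul, Real.norm_of_nonneg hε0.le, Real.norm_of_nonneg (inv_pos.2 (hpos x)).le]
    have h2 : ‖(2 : ℕ) • (innerSL ℝ x : E →L[ℝ] ℝ)‖ ≤ 2 * ‖x‖ := by
      rw [← Nat.cast_smul_eq_nsmul ℝ, norm_smul, innerSL_apply_norm]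
      simp
    have h3 : ‖(B - A) x‖ ≤ D * ‖x‖ := (B - A).le_opNorm x
    have h4 : ‖deriv Real.smoothTransition (u x)‖ ≤ M := hM _
    calc ‖deriv Real.smoothTransition (u x)‖ *
        (ε * ((‖x‖ ^ 2 + η)⁻¹ * ‖(2 : ℕ) • (innerSL ℝ x : E →L[ℝ] ℝ)‖))
        * ‖(B - A) x‖ ≤ M * (ε * ((‖x‖ ^ 2 + η)⁻¹ * (2 * ‖x‖))) * (D * ‖x‖) := by
          gcongr
      _ = 2 * M * D * ε * ((‖x‖ ^ 2 + η)⁻¹ * ‖x‖ ^ 2) := by ring
      _ ≤ 2 * M * D * ε * 1 := by
          gcongr
          rw [inv_mul_le_iff₀ (hpos x)]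
          linarith
      _ ≤ δ := by linarith
  refine ⟨Real.sqrt η, Real.sqrt_pos.2 hη0, ?_, fun x => A x + χ x • (B - A) x, ?_, ?_, ?_, ?_⟩
  · rw [Real.sqrt_lt' one_pos]; simpa using hη1
  · exact A.contDiff.add (hχc.smul (B - A).contDiff)
  · intro x hx
    have h1 : 0 ≤ Real.log (‖x‖ ^ 2 + η) := Real.log_nonneg (by nlinarith)
    have h2 : χ x = 0 := by
      rw [hχ]
      apply Real.smoothTransition.zero_of_nonpos
      rw [hu]
      have := mul_nonneg hε0.le h1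
      simp only
      linarith
    simp [h2]
  · intro x hx
    have h0 : ‖x‖ ^ 2 ≤ η := by
      calc ‖x‖ ^ 2 ≤ (Real.sqrt η) ^ 2 := by gcongr
        _ = η := Real.sq_sqrt hη0.le
    have h1 : Real.log (‖x‖ ^ 2 + η) ≤ -ε⁻¹ := by
      rw [Real.log_le_iff_le_exp (hpos x)]
      rw [hη] at h0 ⊢
      linarith
    have h2 : χ x = 1 := by
      rw [hχ]
      apply Real.smoothTransition.one_of_one_le
      rw [hu]
      simp only
      have h3 : ε * Real.log (‖x‖ ^ 2 + η) ≤ ε * (-ε⁻¹) := by gcongr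
      have h4 : ε * (-ε⁻¹) = -1 := by
        rw [mul_neg, mul_inv_cancel₀ hε0.ne']
      linarith
    simp [h2]
  · intro x
    rw [(hd x).fderiv]
    apply hδS
    refine mem_cthickening_of_dist_le _ (A + χ x • (B - A)) _ _ ?_ ?_
    · exact ⟨χ x, ⟨Real.smoothTransition.nonneg _, Real.smoothTransition.le_one _⟩, rfl⟩
    · rw [dist_eq_norm]
      have : A + (χ x • (B - A) + (fderiv ℝ χ x).smulRight ((B - A) x)) - (A + χ x • (B - A)) =
        (fderiv ℝ χ x).smulRight ((B - A) x) := by abel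
      rw [this]
      exact hbound x

theorem reach_of_preconnected {S : Set (E →L[ℝ] E)} (hS : IsOpen S) (hpre : IsPreconnected S)
    {A B : E →L[ℝ] E} (hA : A ∈ S) (hB : B ∈ S) : Reach S A B := by
  refine hpre.induction₂' (Reach S) ?_ ?_ hA hB
  · intro C hC
    obtain ⟨r, hr, hrS⟩ := Metric.isOpen_iff.1 hS C hC
    filter_upwards [mem_nhdsWithin_of_mem_nhds (ball_mem_nhds C hr)] with D hD
    have hconv := convex_ball C r
    have hCm : C ∈ ball C r := mem_ball_self hr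
    constructor
    · refine reach_segment hS fun t ht => hrS ?_
      exact hconv.add_smul_sub_mem hCm hD ht
    · refine reach_segment hS fun t ht => hrS ?_
      exact hconv.add_smul_sub_mem hD hCm ht
  · intro A B C _ _ _ h1 h2
    exact h1.trans h2

end Pool.Agent.Helper96.NatBdry
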