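import Pool.Agent.Helper96.NatBdry.Cls

open Set Filter Topology Metric
open scoped RealInnerProductSpace

namespace Pool.Agent.Helper96.NatBdry

variable {E : Type*} [NormedAddCommGroup E] [InnerProductSpace ℝ E]

/-- reflection in the hyperplane orthogonal to `a` -/
noncomputable def refl (a : E) : E →L[ℝ] E :=
  ContinuousLinearMap.id ℝ E - (2 / ‖a‖ ^ 2) • (innerSL ℝ a).smulRight a

theorem refl_apply (a x : E) : refl a x = x - (2 / ‖a‖ ^ 2 * ⟪a, x⟫) • a := by
  simp [refl, smul_smul]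

theorem norm_refl (a x : E) : ‖refl a x‖ = ‖x‖ := by
  by_cases ha : a = 0
  · simp [refl_apply, ha]
  have ha' : ‖a‖ ≠ 0 := by simpa using ha
  have h1 : ‖refl a x‖ ^ 2 = ‖x‖ ^ 2 := by
    rw [refl_apply, @norm_sub_sq_real, inner_smul_right, norm_smul, mul_pow,
      real_inner_comm a x, Real.norm_eq_abs, sq_abs]
    field_simp
    ring
  exact (sq_eq_sq₀ (norm_nonneg _) (norm_nonneg _)).1 h1

theorem refl_refl (a x : E) : refl a (refl a x) = x := by
  by_cases ha : a = 0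
  · simp [refl_apply, ha]
  have ha' : ‖a‖ ≠ 0 := by simpa using ha
  rw [refl_apply, refl_apply, inner_sub_right, inner_smul_right, real_inner_self_eq_norm_sq]
  have : 2 / ‖a‖ ^ 2 * (⟪a, x⟫ - 2 / ‖a‖ ^ 2 * ⟪a, x⟫ * ‖a‖ ^ 2) = - (2 / ‖a‖ ^ 2 * ⟪a, x⟫) := by
    field_simp
    ring
  rw [this]
  module

theorem refl_sub {u v : E} (h : ‖u‖ = ‖v‖) : refl (u - v) u = v := by
  by_cases ha : u - v = 0
  · rw [refl_apply, ha]; simp [sub_eq_zero.1 ha]
  have ha' : ‖u - v‖ ≠ 0 := by simpa using ha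
  rw [refl_apply]
  have h2 : ‖u - v‖ ^ 2 = 2 * ⟪u - v, u⟫ := by
    rw [@norm_sub_sq_real, inner_sub_left, real_inner_self_eq_norm_sq, real_inner_comm v u, h]
    ring
  have h3 : 2 / ‖u - v‖ ^ 2 * ⟪u - v, u⟫ = 1 := by
    have : ‖u - v‖ ^ 2 ≠ 0 := pow_ne_zero _ ha'
    rw [div_mul_eq_mul_div, ← h2, div_self this]
  rw [h3]
  simp

theorem exists_orth [FiniteDimensional ℝ E] (hn : 2 ≤ Module.finrank ℝ E) (u z : E) :
    ∃ w : E, w ≠ 0 ∧ ⟪w, u⟫ = 0 ∧ 0 ≤ ⟪w, z⟫ := by
  have h1 : (ℝ ∙ u)ᗮ ≠ ⊥ := by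
    intro h
    rw [Submodule.orthogonal_eq_bot_iff] at h
    have h2 : Module.finrank ℝ (ℝ ∙ u) ≤ 1 := by
      by_cases hu : u = 0
      · rw [hu, Submodule.span_zero_singleton, finrank_bot]; exact zero_le_one
      · rw [finrank_span_singleton hu]
    rw [h, finrank_top] at h2
    omega
  obtain ⟨w, hw, hw0⟩ := Submodule.exists_mem_ne_zero_of_ne_bot h1
  rw [Submodule.mem_orthogonal_singleton_iff_inner_left] at hw
  rcases le_total 0 (⟪w, z⟫) with h | h
  · exact ⟨w, hw0, hw, h⟩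
  · refine ⟨-w, neg_ne_zero.2 hw0, by simp [hw], by simpa using h⟩

theorem exists_rot [FiniteDimensional ℝ E] (hn : 2 ≤ Module.finrank ℝ E) {κ : ℝ} (hκ : 1 < κ)
    {u v : E} (h : ‖u‖ = ‖v‖) :
    ∃ U : E →L[ℝ] E, (∀ x, ‖U x‖ = ‖x‖) ∧ U u = v ∧ U ∈ Cl E κ := by
  by_cases huv : u - v = 0
  · exact ⟨1, by simp, by simpa [sub_eq_zero] using huv, one_mem_Cl hκ⟩
  obtain ⟨w, hw0, hwu, hwz⟩ := exists_orth hn u (u - v)
  have hne : ∀ t ∈ Icc (0 : ℝ) 1, (1 - t) • w + t • (u - v) ≠ 0 := by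
    intro t ht h0
    have h1 : ⟪(1 - t) • w + t • (u - v), (1 - t) • w + t • (u - v)⟫ = 0 := by rw [h0]; simp
    rw [inner_add_left, inner_add_right, inner_add_right, inner_smul_left, inner_smul_left,
      inner_smul_left, inner_smul_left, inner_smul_right, inner_smul_right, inner_smul_right,
      inner_smul_right, real_inner_self_eq_norm_sq, real_inner_self_eq_norm_sq,
      real_inner_comm w (u - v)] at h1
    simp only [conj_trivial] at h1
    have hw' : 0 < ‖w‖ ^ 2 := by positivity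
    have hz' : 0 < ‖u - v‖ ^ 2 := by positivity
    have ht0 := ht.1
    have ht1 : 0 ≤ 1 - t := by linarith [ht.2]
    have h2 : 0 ≤ (1 - t) * (t * ⟪w, u - v⟫) := by positivity
    have h3 : 0 ≤ (1 - t) * ((1 - t) * ‖w‖ ^ 2) := by positivity
    have h4 : 0 ≤ t * (t * ‖u - v‖ ^ 2) := by positivity
    have h5 : (1 - t) * ((1 - t) * ‖w‖ ^ 2) = 0 := by linarith
    have h6 : t * (t * ‖u - v‖ ^ 2) = 0 := by linarith
    have h7 : t = 0 := by
      by_contra h7
      have : 0 < t := lt_of_le_of_ne ht0 (Ne.symm h7)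
      have : 0 < t * (t * ‖u - v‖ ^ 2) := by positivity
      linarith
    rw [h7] at h5
    simp at h5
    exact hw0 h5
  set γ : ℝ → (E →L[ℝ] E) := fun t => (refl ((1 - t) • w + t • (u - v))) ∘L (refl w) with hγ
  have hcont : ContinuousOn γ (Icc 0 1) := by
    have h1 : ContinuousOn (fun a : E => refl a) {0}ᶜ := by
      unfold refl
      refine continuousOn_const.sub (ContinuousOn.fun_smul ?_ ?_)
      · refine continuousOn_const.div (by fun_prop) fun a ha => ?_
        have : a ≠ 0 := by simpa using ha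
        positivity
      · have : (fun a : E => (innerSL ℝ a).smulRight a) =
          fun a : E => ContinuousLinearMap.smulRightL ℝ E E (innerSL ℝ a) a := rfl
        rw [this]
        fun_prop
    have h2 : ContinuousOn (fun t : ℝ => refl ((1 - t) • w + t • (u - v))) (Icc 0 1) := by
      refine h1.comp (by fun_prop) fun t ht => ?_
      simpa using hne t ht
    rw [hγ]
    exact ContinuousOn.clm_comp h2 continuousOn_const
  have hpre : IsPreconnected (γ '' Icc 0 1) := isPreconnected_Icc.image _ hcont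
  have hiso : ∀ t x, ‖γ t x‖ = ‖x‖ := by
    intro t x
    simp [hγ, norm_refl]
  refine ⟨γ 1, hiso 1, ?_, ?_⟩
  · have h1 : refl w u = u := by rw [refl_apply, hwu]; simp
    simp only [hγ, ContinuousLinearMap.comp_apply, h1]
    simpa using refl_sub h
  · refine subset_Cl hpre ?_ (A := γ 0) ⟨0, by simp, rfl⟩ ?_ ⟨1, by simp, rfl⟩
    · rintro _ ⟨t, _, rfl⟩
      exact isom_mem_Qk hκ (hiso t)
    · have : γ 0 = 1 := by
        ext x
        simp [hγ, refl_refl]
      rw [this]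
      exact one_mem_Cl hκ

end Pool.Agent.Helper96.NatBdry
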