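import Pool.Agent.Helper96.NatBdry.Modify

open Set Filter Topology Metric
open scoped RealInnerProductSpace

namespace Pool.Agent.Helper96.NatBdry

variable {E : Type*} [NormedAddCommGroup E] [InnerProductSpace ℝ E]

/-- the class of maps used in the construction -/
def Good (κ : ℝ) (f : E → E) : Prop :=
  ContDiff ℝ 1 f ∧ ∀ x, ‖x‖ ≤ 1 → fderiv ℝ f x ∈ Cl E κ ∧ ‖f x‖ < 2

theorem exists_dir (p b : E) (hb : ‖b‖ = 1) : ∃ d : E, ‖d‖ = 1 ∧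
    ∀ s : ℝ, 0 ≤ s → s ≤ 1 → ‖p + s • d‖ ≤ max ‖p‖ 1 := by
  by_cases hp : p = 0
  · refine ⟨b, hb, fun s h0 h1 => ?_⟩
    rw [hp, zero_add, norm_smul, hb, mul_one, Real.norm_of_nonneg h0]
    exact h1.trans (le_max_right _ _)
  · have hp' : 0 < ‖p‖ := norm_pos_iff.2 hp
    refine ⟨-(‖p‖⁻¹ • p), ?_, fun s h0 h1 => ?_⟩
    · rw [norm_neg, norm_smul, norm_inv, norm_norm, inv_mul_cancel₀ hp'.ne']
    · have h2 : p + s • -(‖p‖⁻¹ • p) = (1 - s * ‖p‖⁻¹) • p := by module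
      rw [h2, norm_smul, Real.norm_eq_abs]
      have h3 : |1 - s * ‖p‖⁻¹| * ‖p‖ = |‖p‖ - s| := by
        rw [← abs_of_pos hp', ← abs_mul, abs_of_pos hp']
        congr 1
        field_simp
      rw [h3, abs_le]
      constructor
      · have := le_max_right ‖p‖ 1
        linarith
      · have := le_max_left ‖p‖ 1
        linarith

theorem scale_norm_inv {r : ℝ} (hr : 0 < r) (y : E) : ‖r⁻¹ • y‖ = r⁻¹ * ‖y‖ := by
  rw [norm_smul, Real.norm_of_nonneg (by positivity)]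

theorem modification [FiniteDimensional ℝ E] (hn : 2 ≤ Module.finrank ℝ E)
    {κ : ℝ} (hκ : 1 < κ) {τ : ℝ} (hτ : 0 < τ) {R : ℝ} (hR : 0 ≤ R)
    (htube : ∀ e : E, ‖e‖ = 1 → ∀ N : ℕ,
      ∃ F : E → E, ContDiff ℝ 1 F ∧ (∀ x, 1 ≤ ‖x‖ → F x = x) ∧
        (∀ x, (2 : ℝ) ^ N * ‖x‖ ≤ 1 → F x = (2 : ℝ) ^ N • x - (N * τ) • e) ∧
        (∀ x, 0 ≤ ⟪x, e⟫ → fderiv ℝ F x ∈ Cl E κ) ∧
        (∀ x, ‖x‖ ≤ 1 → ∃ t ∈ Icc (0 : ℝ) N, ‖F x + (t * τ) • e‖ ≤ R))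
    {f : E → E} (hf : Good κ f) {b : E} (hb : ‖b‖ = 1) {ε : ℝ} (hε : 0 < ε) :
    ∃ f' : E → E, Good κ f' ∧ (∀ x, ε ≤ ‖x - b‖ → f' x = f x) ∧
      ∃ x₁ x₂ : E, ‖x₁‖ < 1 ∧ ‖x₂‖ < 1 ∧ ‖x₁ - b‖ < ε ∧ ‖x₂ - b‖ < ε ∧
        1 / 2 ≤ ‖f' x₁ - f' x₂‖ := by
  obtain ⟨hfc, hfg⟩ := hf
  obtain ⟨hA, hp2⟩ := hfg b hb.le
  have hSo := isOpen_Cl (E := E) hκ
  -- affine step
  obtain ⟨ρ₁, hρ₁, hρ₁ε, f₁, h1c, h1a, h1b, h1s⟩ :=
    affine_mod hSo hfc hA (δ := 2 - ‖f b‖) (ε := min ε (1 / 2)) (by linarith) (by positivity)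
  have hρ₁ε' : ρ₁ < ε := lt_of_lt_of_le hρ₁ε (min_le_left _ _)
  have hρ₁2 : ρ₁ < 1 / 2 := lt_of_lt_of_le hρ₁ε (min_le_right _ _)
  set p := f b with hp
  set A := fderiv ℝ f b with hAdef
  have h1good : ∀ x, ‖x‖ ≤ 1 → fderiv ℝ f₁ x ∈ Cl E κ ∧ ‖f₁ x‖ < 2 := by
    intro x hx
    rcases h1s x with h | h
    · rw [h.1, h.2]; exact hfg x hx
    · refine ⟨h.2, ?_⟩
      have : ‖f₁ x‖ ≤ ‖f₁ x - p‖ + ‖p‖ := by
        calc ‖f₁ x‖ = ‖(f₁ x - p) + p‖ := by congr 1; abel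
          _ ≤ _ := norm_add_le _ _
      linarith [h.1]
  -- direction
  obtain ⟨d, hd1, hd⟩ := exists_dir p b hb
  obtain ⟨U, hUn, hUb, hUC⟩ := exists_rot hn hκ (u := b) (v := d) (by rw [hb, hd1])
  -- reset step
  obtain ⟨ρg, hρg0, hρg1, g, hgc, hga, hgb, hgs⟩ :=
    reach_of_preconnected hSo isPreconnected_Cl hA hUC
  obtain ⟨Sg, hSg⟩ := (isCompact_closedBall (0 : E) 1).exists_bound_of_continuousOn
    hgc.continuous.continuousOn
  have hSg0 : 0 ≤ Sg := (norm_nonneg _).trans (hSg 0 (by simp))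
  set r₂ : ℝ := min (ρ₁ / 2) ((2 - ‖p‖) / (2 * (Sg + 1))) with hr₂
  have hp20 : 0 < 2 - ‖p‖ := by linarith
  have hr₂0 : 0 < r₂ := by positivity
  have hr₂ρ : r₂ < ρ₁ := lt_of_le_of_lt (min_le_left _ _) (by linarith)
  have hr₂S : r₂ * Sg < 2 - ‖p‖ := by
    have h2 : r₂ ≤ (2 - ‖p‖) / (2 * (Sg + 1)) := min_le_right _ _
    have h3 : 0 < 2 * (Sg + 1) := by positivity
    rw [le_div_iff₀ h3] at h2
    nlinarith
  have hGA : ∀ y, r₂ ≤ ‖y‖ → r₂ • g (r₂⁻¹ • y) = A y := by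
    intro y hy
    have : 1 ≤ ‖r₂⁻¹ • y‖ := by
      rw [scale_norm_inv hr₂0, inv_mul_eq_div, one_le_div hr₂0]; exact hy
    rw [hga _ this, map_smul, smul_smul, mul_inv_cancel₀ hr₂0.ne', one_smul]
  obtain ⟨f₂, h2c, h2a, h2b, h2s⟩ := replace h1c h1b (contDiff_scale (r := r₂) hgc) hGA
  have h2good : ∀ x, ‖x‖ ≤ 1 → fderiv ℝ f₂ x ∈ Cl E κ ∧ ‖f₂ x‖ < 2 := by
    intro x hx
    by_cases hxr : r₂ < ‖x - b‖
    · rw [h2a x hxr.le, h2b x hxr]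
      exact h1good x hx
    · have hxr' := not_lt.1 hxr
      obtain ⟨h3, h4⟩ := h2s x (by linarith)
      rw [h3, h4, (hasFDerivAt_scale hr₂0.ne' hgc (x - b)).fderiv]
      refine ⟨hgs _, ?_⟩
      have h5 : ‖g (r₂⁻¹ • (x - b))‖ ≤ Sg := by
        apply hSg
        rw [mem_closedBall_zero_iff, scale_norm_inv hr₂0, inv_mul_le_iff₀ hr₂0]
        linarith
      calc ‖p + r₂ • g (r₂⁻¹ • (x - b))‖ ≤ ‖p‖ + ‖r₂ • g (r₂⁻¹ • (x - b))‖ := norm_add_le _ _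
        _ ≤ ‖p‖ + r₂ * Sg := by
            rw [norm_smul, Real.norm_of_nonneg hr₂0.le]
            gcongr
        _ < 2 := by linarith
  set ρ₂ : ℝ := r₂ * ρg with hρ₂
  have hρ₂0 : 0 < ρ₂ := by positivity
  have hρ₂r : ρ₂ < r₂ := by rw [hρ₂]; nlinarith
  have h2U : ∀ x, ‖x - b‖ ≤ ρ₂ → f₂ x = p + U (x - b) := by
    intro x hx
    rw [(h2s x (by linarith)).1]
    have : ‖r₂⁻¹ • (x - b)‖ ≤ ρg := by
      rw [scale_norm_inv hr₂0, inv_mul_le_iff₀ hr₂0]; exact hx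
    rw [hgb _ this, map_smul, smul_smul, mul_inv_cancel₀ hr₂0.ne', one_smul]
  -- tube step
  have hm2 : max ‖p‖ 1 < 2 := max_lt hp2 (by norm_num)
  set r₃ : ℝ := min (min (ρ₂ / 2) (1 / (2 * τ))) ((2 - max ‖p‖ 1) / (2 * (R + 1))) with hr₃
  have hm20 : 0 < 2 - max ‖p‖ 1 := by linarith
  have hr₃0 : 0 < r₃ := by positivity
  have hr₃ρ : r₃ < ρ₂ := lt_of_le_of_lt ((min_le_left _ _).trans (min_le_left _ _)) (by linarith)
  have hr₃τ : r₃ * τ ≤ 1 / 2 := by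
    have h2 : r₃ ≤ 1 / (2 * τ) := (min_le_left _ _).trans (min_le_right _ _)
    rw [le_div_iff₀ (by positivity)] at h2
    linarith
  have hr₃R : r₃ * R < 2 - max ‖p‖ 1 := by
    have h2 : r₃ ≤ (2 - max ‖p‖ 1) / (2 * (R + 1)) := min_le_right _ _
    have h3 : 0 < 2 * (R + 1) := by positivity
    rw [le_div_iff₀ h3] at h2
    nlinarith
  have hr₃τ0 : 0 < r₃ * τ := by positivity
  obtain ⟨N, hN1, hN2⟩ : ∃ N : ℕ, 1 / 2 ≤ N * (r₃ * τ) ∧ N * (r₃ * τ) ≤ 1 := by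
    refine ⟨⌈(1 / 2) / (r₃ * τ)⌉₊, ?_, ?_⟩
    · rw [← div_le_iff₀ hr₃τ0]
      exact Nat.le_ceil _
    · have h2 := (Nat.ceil_lt_add_one (a := (1 / 2) / (r₃ * τ)) (by positivity)).le
      calc (⌈(1 / 2) / (r₃ * τ)⌉₊ : ℝ) * (r₃ * τ) ≤ ((1 / 2) / (r₃ * τ) + 1) * (r₃ * τ) := by
            gcongr
        _ = 1 / 2 + r₃ * τ := by field_simp
        _ ≤ 1 := by linarith
  obtain ⟨F, hFc, hFa, hFb, hFs, hFR⟩ := htube (-b) (by rw [norm_neg, hb]) N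
  set G : E → E := fun y => U (r₃ • F (r₃⁻¹ • y)) with hG
  have hGc : ContDiff ℝ 1 G := U.contDiff.comp (contDiff_scale hFc)
  have hGU : ∀ y, r₃ ≤ ‖y‖ → G y = U y := by
    intro y hy
    have : 1 ≤ ‖r₃⁻¹ • y‖ := by
      rw [scale_norm_inv hr₃0, inv_mul_eq_div, one_le_div hr₃0]; exact hy
    rw [hG]
    simp only
    rw [hFa _ this, smul_smul, mul_inv_cancel₀ hr₃0.ne', one_smul]
  have hGd : ∀ y, fderiv ℝ G y = U ∘L fderiv ℝ F (r₃⁻¹ • y) := by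
    intro y
    exact (U.hasFDerivAt.comp y (hasFDerivAt_scale hr₃0.ne' hFc y)).fderiv
  obtain ⟨f₃, h3c, h3a, h3b, h3s⟩ := replace h2c h2U hGc hGU
  have h3good : ∀ x, ‖x‖ ≤ 1 → fderiv ℝ f₃ x ∈ Cl E κ ∧ ‖f₃ x‖ < 2 := by
    intro x hx
    by_cases hxr : r₃ < ‖x - b‖
    · rw [h3a x hxr.le, h3b x hxr]
      exact h2good x hx
    · have hxr' := not_lt.1 hxr
      obtain ⟨h3, h4⟩ := h3s x (by linarith)
      rw [h3, h4, hGd]
      constructor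
      · refine isom_comp_mem_Cl hκ hUn hUC (hFs _ ?_)
        rw [inner_smul_left, inner_neg_right, inner_sub_left, real_inner_self_eq_norm_sq, hb]
        have h5 : ⟪x, b⟫ ≤ 1 := by
          have := real_inner_le_norm x b
          rw [hb] at this
          linarith
        simp only [conj_trivial]
        have : 0 < r₃⁻¹ := by positivity
        apply mul_nonneg this.le
        linarith
      · obtain ⟨t, ht, h5⟩ := hFR (r₃⁻¹ • (x - b)) (by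
          rw [scale_norm_inv hr₃0, inv_mul_le_iff₀ hr₃0]; linarith)
        have h6 : p + G (x - b) = (p + (r₃ * t * τ) • d) +
            r₃ • U (F (r₃⁻¹ • (x - b)) + (t * τ) • -b) := by
          rw [hG]
          simp only [map_add, map_smul, map_neg, hUb]
          module
        rw [h6]
        have ht0 : 0 ≤ r₃ * t * τ := by
          have := ht.1
          positivity
        have ht1 : r₃ * t * τ ≤ 1 := by
          calc r₃ * t * τ = t * (r₃ * τ) := by ring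
            _ ≤ N * (r₃ * τ) := by gcongr; exact ht.2
            _ ≤ 1 := hN2
        calc ‖(p + (r₃ * t * τ) • d) + r₃ • U (F (r₃⁻¹ • (x - b)) + (t * τ) • -b)‖
            ≤ ‖p + (r₃ * t * τ) • d‖ + ‖r₃ • U (F (r₃⁻¹ • (x - b)) + (t * τ) • -b)‖ :=
              norm_add_le _ _
          _ ≤ max ‖p‖ 1 + r₃ * R := by
              gcongr
              · exact hd _ ht0 ht1
              · rw [norm_smul, Real.norm_of_nonneg hr₃0.le, hUn]
                gcongr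
          _ < 2 := by linarith
  have hpow : (1 : ℝ) ≤ 2 ^ N := one_le_pow₀ (by norm_num)
  have hpow0 : (0 : ℝ) < 2 ^ N := by linarith
  have hinv : ((2 : ℝ) ^ N)⁻¹ ≤ 1 := inv_le_one_of_one_le₀ hpow
  have hinv0 : 0 < ((2 : ℝ) ^ N)⁻¹ := by positivity
  have hwit : ∀ s : ℝ, 0 < s → s ≤ 1 → ‖b + (r₃ * s) • -b‖ < 1 ∧
      ‖(b + (r₃ * s) • -b) - b‖ < ε ∧
      f₃ (b + (r₃ * s) • -b) = p + U (r₃ • F (s • -b)) := by
    intro s hs0 hs1
    have hs2 : r₃ * s ≤ r₃ := by nlinarith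
    have hs3 : 0 < r₃ * s := by positivity
    have h1 : ‖(b + (r₃ * s) • -b) - b‖ = r₃ * s := by
      rw [add_sub_cancel_left, norm_smul, norm_neg, hb, Real.norm_of_nonneg (by positivity),
        mul_one]
    refine ⟨?_, ?_, ?_⟩
    · have h2 : b + (r₃ * s) • -b = (1 - r₃ * s) • b := by module
      rw [h2, norm_smul, hb, mul_one, Real.norm_of_nonneg (by linarith)]
      linarith
    · rw [h1]; linarith
    · rw [(h3s _ (by rw [h1]; linarith)).1]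
      have h2 : (b + (r₃ * s) • -b) - b = (r₃ * s) • -b := by abel
      rw [h2, hG]
      simp only
      rw [smul_smul, ← mul_assoc, inv_mul_cancel₀ hr₃0.ne', one_mul]
  obtain ⟨hw1, hw2, hw3⟩ := hwit (((2 : ℝ) ^ N)⁻¹) hinv0 hinv
  obtain ⟨hv1, hv2, hv3⟩ := hwit 1 one_pos le_rfl
  refine ⟨f₃, ⟨h3c, h3good⟩, ?_, b + (r₃ * ((2 : ℝ) ^ N)⁻¹) • -b, b + (r₃ * 1) • -b,
    hw1, hv1, hw2, hv2, ?_⟩
  · intro x hx
    rw [h3a x (by linarith), h2a x (by linarith), h1a x (by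
      exact (min_le_left _ _).trans hx)]
  · rw [hw3, hv3]
    have h1 : F ((1 : ℝ) • -b) = -b := by
      rw [one_smul]
      apply hFa
      rw [norm_neg, hb]
    have h2 : F (((2 : ℝ) ^ N)⁻¹ • -b) = -b - (N * τ) • -b := by
      rw [hFb]
      · rw [smul_smul, mul_inv_cancel₀ hpow0.ne', one_smul]
      · rw [norm_smul, norm_neg, hb, Real.norm_of_nonneg hinv0.le, mul_one,
          mul_inv_cancel₀ hpow0.ne']
    rw [h1, h2]
    have h3 : p + U (r₃ • (-b - (N * τ) • -b)) - (p + U (r₃ • -b)) = (N * (r₃ * τ)) • U b := by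
      simp only [map_sub, map_smul, map_neg]
      module
    rw [h3, norm_smul, hUn, hb, mul_one, Real.norm_of_nonneg (by positivity)]
    exact hN1

end Pool.Agent.Helper96.NatBdry
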