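import Pool.Agent.Helper96.NatBdry.Reach

open Set Filter Topology Metric
open scoped RealInnerProductSpace

namespace Pool.Agent.Helper96.NatBdry

variable {E : Type*} [NormedAddCommGroup E] [InnerProductSpace ℝ E]

theorem exists_g : ∃ T : ℝ, 1 < T ∧ ∃ g : E → E, ContDiff ℝ 1 g ∧
    (∀ y, T ≤ ‖y‖ → g y = y) ∧ (∀ y, ‖y‖ ≤ 1 → g y = (2 : ℝ) • y) ∧
    ∀ y, fderiv ℝ g y ∈ Qk E 2 := by
  have h1 : Reach (Qk E 2) (1 : E →L[ℝ] E) ((2 : ℝ) • (1 : E →L[ℝ] E)) := by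
    refine reach_segment (isOpen_Qk (by norm_num)) fun t ht => ?_
    have : (1 : E →L[ℝ] E) + t • ((2 : ℝ) • (1 : E →L[ℝ] E) - 1) = (1 + t) • 1 := by
      module
    rw [this]
    exact smul_mem_Qk (one_mem_Qk (by norm_num)) (by linarith [ht.1])
  obtain ⟨ρ, h0, hρ1, g, hgc, hga, hgb, hgs⟩ := h1
  have hnorm : ∀ x : E, ‖(ρ⁻¹)⁻¹ • x‖ = ρ * ‖x‖ := fun x => by
    rw [inv_inv, norm_smul, Real.norm_of_nonneg h0.le]
  refine ⟨ρ⁻¹, (one_lt_inv₀ h0).2 hρ1, fun x => ρ⁻¹ • g ((ρ⁻¹)⁻¹ • x), contDiff_scale hgc,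
    ?_, ?_, ?_⟩
  · intro y hy
    have : 1 ≤ ‖(ρ⁻¹)⁻¹ • y‖ := by
      rw [hnorm]
      rw [inv_le_iff_one_le_mul₀ h0] at hy
      linarith
    simp only
    rw [hga _ this]
    simp [smul_smul, h0.ne']
  · intro y hy
    have : ‖(ρ⁻¹)⁻¹ • y‖ ≤ ρ := by
      rw [hnorm]
      nlinarith
    simp only
    rw [hgb _ this]
    simp [smul_smul, h0.ne']
  · intro y
    rw [(hasFDerivAt_scale (inv_ne_zero h0.ne') hgc y).fderiv]
    exact hgs _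

/-- push map -/
noncomputable def pmap (τ : ℝ) (e x : E) : E :=
  x - (τ * Real.smoothTransition (4 * (1 - ‖x‖ ^ 2))) • e

theorem pmap_far {τ : ℝ} {e x : E} (hx : 1 ≤ ‖x‖) : pmap τ e x = x := by
  rw [pmap, Real.smoothTransition.zero_of_nonpos (by nlinarith)]
  simp

theorem pmap_near {τ : ℝ} {e x : E} (hx : ‖x‖ ^ 2 ≤ 3 / 4) : pmap τ e x = x - τ • e := by
  rw [pmap, Real.smoothTransition.one_of_one_le (by linarith)]
  simp

theorem norm_pmap_add {τ : ℝ} (hτ : 0 ≤ τ) {e x : E} (he : ‖e‖ = 1) :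
    ‖pmap τ e x + τ • e‖ ≤ ‖x‖ + 2 * τ := by
  rw [pmap]
  have h1 : ‖(τ * Real.smoothTransition (4 * (1 - ‖x‖ ^ 2))) • e‖ ≤ τ := by
    rw [norm_smul, he, mul_one, Real.norm_of_nonneg (mul_nonneg hτ
      (Real.smoothTransition.nonneg _))]
    have := Real.smoothTransition.le_one (4 * (1 - ‖x‖ ^ 2))
    nlinarith
  have h2 : ‖τ • e‖ = τ := by rw [norm_smul, he, mul_one, Real.norm_of_nonneg hτ]
  calc ‖x - (τ * Real.smoothTransition (4 * (1 - ‖x‖ ^ 2))) • e + τ • e‖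
      ≤ ‖x - (τ * Real.smoothTransition (4 * (1 - ‖x‖ ^ 2))) • e‖ + ‖τ • e‖ := norm_add_le _ _
    _ ≤ ‖x‖ + ‖(τ * Real.smoothTransition (4 * (1 - ‖x‖ ^ 2))) • e‖ + ‖τ • e‖ := by
        gcongr; exact norm_sub_le _ _
    _ ≤ _ := by linarith

theorem pmap_contDiff (τ : ℝ) (e : E) : ContDiff ℝ 1 (pmap τ e) := by
  unfold pmap
  have h1 : ContDiff ℝ 1 (fun x : E => Real.smoothTransition (4 * (1 - ‖x‖ ^ 2))) :=
    Real.smoothTransition.contDiff.comp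
      (contDiff_const.mul (contDiff_const.sub (contDiff_norm_sq ℝ)))
  exact contDiff_id.sub ((contDiff_const.mul h1).smul contDiff_const)

/-- coefficient in the derivative of `pmap` -/
noncomputable def pc (τ : ℝ) (x : E) : ℝ :=
  8 * τ * deriv Real.smoothTransition (4 * (1 - ‖x‖ ^ 2))

theorem pmap_fderiv (τ : ℝ) (e x v : E) :
    fderiv ℝ (pmap τ e) x v = v + (pc τ x * ⟪x, v⟫) • e := by
  have h1 : HasFDerivAt (fun x : E => ‖x‖ ^ 2) ((2 : ℕ) • (innerSL ℝ x : E →L[ℝ] ℝ)) x :=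
    (hasStrictFDerivAt_norm_sq x).hasFDerivAt
  have h2 : HasFDerivAt (fun x : E => 4 * (1 - ‖x‖ ^ 2))
      ((4 : ℝ) • (-((2 : ℕ) • (innerSL ℝ x : E →L[ℝ] ℝ)))) x := (h1.const_sub 1).const_mul 4
  have h3 := (sT_differentiable (4 * (1 - ‖x‖ ^ 2))).hasDerivAt.comp_hasFDerivAt x h2
  have h4 := (hasFDerivAt_id x).sub ((h3.const_mul τ).smul_const e)
  have h5 : HasFDerivAt (pmap τ e) _ x := h4
  rw [h5.fderiv]
  simp [pc, ContinuousLinearMap.smulRight_apply]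
  congr 1
  ring

omit [InnerProductSpace ℝ E] in
theorem pc_nonneg {τ : ℝ} (hτ : 0 ≤ τ) (x : E) : 0 ≤ pc τ x := by
  have := Real.smoothTransition.monotone.deriv_nonneg (x := 4 * (1 - ‖x‖ ^ 2))
  unfold pc
  positivity

omit [InnerProductSpace ℝ E] in
theorem pc_bound {τ M : ℝ} (hτ : 0 ≤ τ) (hM0 : 0 ≤ M)
    (hM : ∀ x, |deriv Real.smoothTransition x| ≤ M)
    (x : E) : pc τ x * ‖x‖ ≤ 8 * τ * M := by
  by_cases hx : ‖x‖ ≤ 1
  · have h1 : pc τ x ≤ 8 * τ * M := by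
      unfold pc
      have := (le_abs_self _).trans (hM (4 * (1 - ‖x‖ ^ 2)))
      gcongr
    have h2 := pc_nonneg hτ x
    nlinarith [norm_nonneg x]
  · have h0 : 4 * (1 - ‖x‖ ^ 2) < 0 := by nlinarith [not_le.1 hx]
    have : Real.smoothTransition =ᶠ[𝓝 (4 * (1 - ‖x‖ ^ 2))] fun _ => (0 : ℝ) := by
      filter_upwards [Iio_mem_nhds h0] with y hy
      exact Real.smoothTransition.zero_of_nonpos hy.le
    have h1 : pc τ x = 0 := by
      unfold pc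
      rw [this.deriv_eq]
      simp
    rw [h1, zero_mul]
    positivity

theorem pmap_mem_Qk {τ M : ℝ} (hτ : 0 ≤ τ) (hM0 : 0 ≤ M)
    (hM : ∀ x, |deriv Real.smoothTransition x| ≤ M)
    {e x : E} (he : ‖e‖ = 1) (hx : 0 ≤ ⟪x, e⟫) :
    fderiv ℝ (pmap τ e) x ∈ Qk E ((1 + 8 * τ * M) ^ 2 + 1) := by
  set L := 1 + 8 * τ * M with hL
  have hL1 : 1 ≤ L := by
    have : 0 ≤ 8 * τ * M := by positivity
    rw [hL]; linarith
  have hL0 : 0 < L := by linarith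
  have hb := pc_bound hτ hM0 hM x
  have hc := pc_nonneg hτ x
  refine ⟨L⁻¹, ?_, ?_⟩
  · have h1 : ‖fderiv ℝ (pmap τ e) x‖ ≤ L := by
      refine ContinuousLinearMap.opNorm_le_bound _ hL0.le fun v => ?_
      rw [pmap_fderiv]
      calc ‖v + (pc τ x * ⟪x, v⟫) • e‖ ≤ ‖v‖ + ‖(pc τ x * ⟪x, v⟫) • e‖ := norm_add_le _ _
        _ = ‖v‖ + pc τ x * |⟪x, v⟫| := by
            rw [norm_smul, he, mul_one, Real.norm_eq_abs, abs_mul, abs_of_nonneg hc]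
        _ ≤ ‖v‖ + pc τ x * (‖x‖ * ‖v‖) := by gcongr; exact abs_real_inner_le_norm x v
        _ = ‖v‖ + (pc τ x * ‖x‖) * ‖v‖ := by ring
        _ ≤ ‖v‖ + (8 * τ * M) * ‖v‖ := by gcongr
        _ = L * ‖v‖ := by rw [hL]; ring
    refine lt_of_le_of_lt h1 ?_
    rw [add_mul, sq, mul_assoc, mul_inv_cancel₀ hL0.ne']
    have : 0 < L⁻¹ := by positivity
    linarith
  · intro v
    rw [inv_mul_le_iff₀ hL0, pmap_fderiv]
    set y := v + (pc τ x * ⟪x, v⟫) • e with hy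
    have h1 : ⟪x, y⟫ = ⟪x, v⟫ * (1 + pc τ x * ⟪x, e⟫) := by
      rw [hy, inner_add_right, inner_smul_right]; ring
    have h2 : 1 ≤ 1 + pc τ x * ⟪x, e⟫ := by
      have := mul_nonneg hc hx
      linarith
    have h3 : |⟪x, v⟫| ≤ ‖x‖ * ‖y‖ := by
      calc |⟪x, v⟫| ≤ |⟪x, v⟫| * (1 + pc τ x * ⟪x, e⟫) :=
            le_mul_of_one_le_right (abs_nonneg _) h2
        _ = |⟪x, y⟫| := by rw [h1, abs_mul, abs_of_nonneg (by linarith : 0 ≤ 1 + pc τ x * ⟪x, e⟫)]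
        _ ≤ _ := abs_real_inner_le_norm x y
    have h4 : v = y - (pc τ x * ⟪x, v⟫) • e := by rw [hy]; abel
    calc ‖v‖ = ‖y - (pc τ x * ⟪x, v⟫) • e‖ := by rw [← h4]
      _ ≤ ‖y‖ + ‖(pc τ x * ⟪x, v⟫) • e‖ := norm_sub_le _ _
      _ = ‖y‖ + pc τ x * |⟪x, v⟫| := by
            rw [norm_smul, he, mul_one, Real.norm_eq_abs, abs_mul, abs_of_nonneg hc]
      _ ≤ ‖y‖ + pc τ x * (‖x‖ * ‖y‖) := by gcongr
      _ = ‖y‖ + (pc τ x * ‖x‖) * ‖y‖ := by ring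
      _ ≤ ‖y‖ + (8 * τ * M) * ‖y‖ := by gcongr
      _ = L * ‖y‖ := by rw [hL]; ring

end Pool.Agent.Helper96.NatBdry
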